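import Pool.Agent.Hhelper83.SSol

/-! The 2-adic conclusions when `(u^l+v^l)/(u+v)` is a square. -/

namespace Pool.Agent.Hhelper83.SSol

open Pool.Agent.Hhelper83.Terjanian

/-- If `u^l+v^l` is divisible by `4` and `(u^l+v^l)/(u+v)` is a square, contradiction. -/
theorem four_case {u v : ℤ} (hcop : IsCoprime u v) {l : ℕ} (hl : l.Prime) (hl2 : l ≠ 2)
    (hne : u ≠ -v) (h4' : (4 : ℤ) ∣ u ^ l + v ^ l) (t : ℤ) (ht : U u (-v) l = t ^ 2) : False := by
  have hlo : Odd l := hl.odd_of_ne_two hl2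
  have hneg : IsCoprime u (-v) := hcop.neg_right
  -- both odd
  have hodd : Odd u ∧ Odd v := by
    have h2 : (2 : ℤ) ∣ u ^ l + v ^ l := (by norm_num : (2 : ℤ) ∣ 4).trans h4'
    rcases Int.even_or_odd u with hue | huo
    · exfalso
      have h3 : (2 : ℤ) ∣ u ^ l := dvd_pow hue.two_dvd hl.ne_zero
      have h5 : (2 : ℤ) ∣ v ^ l := (dvd_add_right h3).mp h2
      have h6 : (2 : ℤ) ∣ v := Int.prime_two.dvd_of_dvd_pow h5
      exact Int.prime_two.not_isUnit (hcop.isUnit_of_dvd' hue.two_dvd h6)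
    · rcases Int.even_or_odd v with hve | hvo
      · exfalso
        have h3 : (2 : ℤ) ∣ v ^ l := dvd_pow hve.two_dvd hl.ne_zero
        have h5 : (2 : ℤ) ∣ u ^ l := (dvd_add_left h3).mp h2
        have h6 : (2 : ℤ) ∣ u := Int.prime_two.dvd_of_dvd_pow h5
        exact Int.prime_two.not_isUnit (hcop.isUnit_of_dvd' h6 hve.two_dvd)
      · exact ⟨huo, hvo⟩
  -- 4 ∣ u + v
  have hUodd : Odd (U u (-v) l) := by
    have h1 : U u (-v) l ≡ (l : ℤ) * (-v) ^ (l - 1) [ZMOD 2] := by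
      have : (2 : ℤ) ∣ u - (-v) := by
        have := (hodd.1.add_odd hodd.2).two_dvd
        simpa using this
      exact (Int.modEq_iff_dvd.mpr (U_modEq_sub u (-v) l 2 this)).symm
    have h2 : Odd ((l : ℤ) * (-v) ^ (l - 1)) :=
      (by exact_mod_cast hlo : Odd (l : ℤ)).mul (hodd.2.neg.pow)
    rw [Int.odd_iff] at h2 ⊢
    rw [← h2]; exact h1
  have h5 : (4 : ℤ) ∣ u - (-v) := by
    have h6 : U u (-v) l * (u - (-v)) = u ^ l + v ^ l := by
      rw [U_mul, hlo.neg_pow]; ring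
    have h7 : (4 : ℤ) ∣ U u (-v) l * (u - (-v)) := by rw [h6]; exact h4'
    have h8 : IsCoprime (4 : ℤ) (U u (-v) l) := by
      have : IsCoprime (2 : ℤ) (U u (-v) l) :=
        (Int.prime_two.coprime_iff_not_dvd).mpr (by
          rw [← even_iff_two_dvd]; exact Int.not_even_iff_odd.mpr hUodd)
      have h9 : IsCoprime ((2 : ℤ) ^ 2) (U u (-v) l) := this.pow_left
      simpa using h9
    exact h8.dvd_of_dvd_mul_left h7
  exact not_sq hneg hodd.2.neg h5 hne hl hl2 t ht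

/-- If `u v ≡ 2 mod 4` and `(u^l+v^l)/(u+v)` is a square, contradiction. -/
theorem two_case {u v : ℤ} {l : ℕ} (hl : l.Prime) (hl2 : l ≠ 2)
    (h2 : u * v ≡ 2 [ZMOD 4]) (t : ℤ) (ht : U u (-v) l = t ^ 2) : False := by
  have hlo : Odd l := hl.odd_of_ne_two hl2
  -- one of u, v is 2 mod 4, the other odd
  have key : ∀ u v : ℤ, u * v % 4 = 2 → u % 2 = 0 → U u (-v) l % 4 = 3 := by
    intro u v huv hu2
    have hu4 : u % 4 = 2 ∧ v % 2 = 1 := by
      have h1 : (u * v) % 4 = ((u % 4) * (v % 4)) % 4 := Int.mul_emod u v 4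
      rw [h1] at huv
      have hu4 : u % 4 = 0 ∨ u % 4 = 1 ∨ u % 4 = 2 ∨ u % 4 = 3 := by omega
      have hv4 : v % 4 = 0 ∨ v % 4 = 1 ∨ v % 4 = 2 ∨ v % 4 = 3 := by omega
      rcases hu4 with h | h | h | h <;> rcases hv4 with h' | h' | h' | h' <;>
        rw [h, h'] at huv <;> norm_num at huv <;> omega
    have hv' : Odd v := by rw [Int.odd_iff]; exact hu4.2
    -- U mod 4
    obtain ⟨m, hm⟩ : ∃ m, l = m + 2 := ⟨l - 2, by have := hl.two_le; omega⟩
    have hU : U u (-v) l ≡ (-v) ^ (l - 1) + u * (-v) ^ (l - 2) [ZMOD 4] := by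
      unfold U
      rw [hm, Finset.sum_range_succ', Finset.sum_range_succ']
      have h0 : ∑ i ∈ Finset.range m, u ^ (i + 1 + 1) * (-v) ^ (m + 2 - 1 - (i + 1 + 1)) ≡ 0
          [ZMOD 4] := by
        rw [Int.modEq_zero_iff_dvd]
        apply Finset.dvd_sum
        intro i _
        apply Dvd.dvd.mul_right
        have : u ^ (i + 1 + 1) = u ^ 2 * u ^ i := by ring
        rw [this]
        apply Dvd.dvd.mul_right
        obtain ⟨w, hw⟩ : ∃ w, u = 2 * w := ⟨u / 2, by omega⟩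
        exact ⟨w ^ 2, by rw [hw]; ring⟩
      have e1 : m + 2 - 1 - (0 + 1) = m + 2 - 2 := by omega
      have e2 : m + 2 - 1 - 0 = m + 2 - 1 := by omega
      rw [e1, e2]
      have := (h0.add_right (u ^ (0 + 1) * (-v) ^ (m + 2 - 2))).add_right
        (u ^ 0 * (-v) ^ (m + 2 - 1))
      refine this.trans ?_
      have : (0 : ℤ) + u ^ (0 + 1) * (-v) ^ (m + 2 - 2) + u ^ 0 * (-v) ^ (m + 2 - 1)
        = (-v) ^ (m + 2 - 1) + u * (-v) ^ (m + 2 - 2) := by ring
      rw [this]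
    have hv2 : (-v) ^ (l - 1) ≡ 1 [ZMOD 4] := by
      obtain ⟨k, hk⟩ := hlo
      have : l - 1 = 2 * k := by omega
      rw [this, pow_mul]
      have : (-v) ^ 2 ≡ 1 [ZMOD 4] := by
        obtain ⟨m, rfl⟩ := hv'
        apply Int.ModEq.symm
        rw [Int.modEq_iff_dvd]
        exact ⟨m ^ 2 + m, by ring⟩
      simpa using this.pow k
    have hv3 : u * (-v) ^ (l - 2) ≡ 2 [ZMOD 4] := by
      have ho : Odd ((-v) ^ (l - 2)) := hv'.neg.pow
      obtain ⟨m, hm⟩ := ho
      rw [hm]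
      obtain ⟨w, hw⟩ : ∃ w, u = 4 * w + 2 := ⟨u / 4, by omega⟩
      apply Int.ModEq.symm
      rw [Int.modEq_iff_dvd]
      exact ⟨w * (2 * m + 1) + m, by rw [hw]; ring⟩
    have := hU.trans (hv2.add hv3)
    exact this
  have h2' : u * v % 4 = 2 := h2
  have hsq : (U u (-v) l) % 4 = 0 ∨ (U u (-v) l) % 4 = 1 := by
    rw [ht]
    rcases Int.even_or_odd t with ⟨m, hm⟩ | ⟨m, hm⟩
    · left
      have : t ^ 2 = 4 * m ^ 2 := by rw [hm]; ring
      omega
    · right
      have : t ^ 2 = 4 * (m ^ 2 + m) + 1 := by rw [hm]; ring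
      omega
  rcases Int.even_or_odd u with hue | huo
  · have := key u v h2' (Int.even_iff.mp hue)
    omega
  · have hve : v % 2 = 0 := by
      rcases Int.even_or_odd v with hve | hvo
      · exact Int.even_iff.mp hve
      · exfalso
        have := huo.mul hvo
        rw [Int.odd_iff] at this
        omega
    have h3 : v * u % 4 = 2 := by rw [mul_comm]; exact h2'
    have h4 : (-v) * (-u) % 4 = 2 := by rw [neg_mul_neg]; exact h3
    have := key (-v) (-u) h4 (by omega)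
    rw [neg_neg, U_comm] at this
    omega

end Pool.Agent.Hhelper83.SSol
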