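import Mathlib

/-! Simultaneous `r`-th power non-residues in an arithmetic progression. -/

namespace Pool.Agent.Hhelper83.NonResidue

/-- a prime `s` with `gcd(r, s-1) > 1` has a unit that is not an `r`-th power. -/
theorem exists_nonpower {s r : ℕ} (hs : s.Prime) (hr : r ≠ 0) (hg : Nat.gcd r (s - 1) ≠ 1) :
    ∃ g : ℕ, ¬ s ∣ g ∧ ∀ e : ZMod s, e ^ r ≠ (g : ZMod s) := by
  have : Fact s.Prime := ⟨hs⟩
  obtain ⟨d, hd, hdd⟩ := Nat.exists_prime_and_dvd hg
  have hdr : d ∣ r := hdd.trans (Nat.gcd_dvd_left _ _)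
  have hds : d ∣ s - 1 := hdd.trans (Nat.gcd_dvd_right _ _)
  have : Fact d.Prime := ⟨hd⟩
  have hcard : d ∣ Fintype.card (ZMod s)ˣ := by rw [ZMod.card_units]; exact hds
  obtain ⟨x, hx⟩ := exists_prime_orderOf_dvd_card d hcard
  have hx1 : x ^ r = 1 := orderOf_dvd_iff_pow_eq_one.mp (hx ▸ hdr)
  have hxne : x ≠ 1 := by
    rintro rfl
    rw [orderOf_one] at hx
    exact hd.one_lt.ne hx
  have hninj : ¬ Function.Injective (fun y : (ZMod s)ˣ => y ^ r) := by
    intro hinj
    apply hxne
    apply hinj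
    simp [hx1]
  have hnsurj : ¬ Function.Surjective (fun y : (ZMod s)ˣ => y ^ r) := by
    intro h
    exact hninj (Finite.injective_iff_surjective.mpr h)
  simp only [Function.Surjective, not_forall, not_exists] at hnsurj
  obtain ⟨g, hg⟩ := hnsurj
  refine ⟨(g : ZMod s).val, ?_, ?_⟩
  · intro hd
    have h0 : ((g : ZMod s).val : ZMod s) = 0 := (ZMod.natCast_eq_zero_iff _ _).mpr hd
    rw [ZMod.natCast_zmod_val] at h0
    exact g.ne_zero h0
  · intro e he
    rw [ZMod.natCast_zmod_val] at he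
    have he0 : e ≠ 0 := by
      rintro rfl
      rw [zero_pow hr] at he
      exact g.ne_zero he.symm
    apply hg (Units.mk0 e he0)
    ext
    simpa using he

/-- simultaneous non-residues. -/
theorem exists_class (r : ℕ) (hr : r ≠ 0) (T : Finset ℕ) (hT : ∀ s ∈ T, s.Prime)
    (hTr : ∀ s ∈ T, ¬ s ∣ r) (hTg : ∀ s ∈ T, Nat.gcd r (s - 1) ≠ 1) :
    ∃ ρ : ℕ, Nat.Coprime ρ (r * ∏ s ∈ T, s) ∧ ρ ≡ 1 [MOD r] ∧
      ∀ s ∈ T, ∀ e : ZMod s, e ^ r ≠ (ρ : ZMod s) := by
  induction T using Finset.induction_on with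
  | empty => exact ⟨1, by simp, rfl, by simp⟩
  | insert s T hsT ih =>
    obtain ⟨ρ, h1, h2, h3⟩ := ih (fun s hs => hT s (Finset.mem_insert_of_mem hs))
      (fun s hs => hTr s (Finset.mem_insert_of_mem hs))
      (fun s hs => hTg s (Finset.mem_insert_of_mem hs))
    have hs : s.Prime := hT s (Finset.mem_insert_self s T)
    obtain ⟨g, hg0, hg⟩ := exists_nonpower hs hr (hTg s (Finset.mem_insert_self s T))
    have hcop : Nat.Coprime (r * ∏ t ∈ T, t) s := by
      apply Nat.Coprime.mul_left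
      · exact ((Nat.Prime.coprime_iff_not_dvd hs).mpr (hTr s (Finset.mem_insert_self s T))).symm
      · apply Nat.Coprime.prod_left
        intro t ht
        rw [Nat.coprime_primes (hT t (Finset.mem_insert_of_mem ht)) hs]
        rintro rfl
        exact hsT ht
    obtain ⟨k, hk1, hk2⟩ := Nat.chineseRemainder hcop ρ g
    refine ⟨k, ?_, ?_, ?_⟩
    · rw [Finset.prod_insert hsT]
      have e : r * (s * ∏ t ∈ T, t) = (r * ∏ t ∈ T, t) * s := by ring
      rw [e]
      apply Nat.Coprime.mul_right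
      · have := hk1.gcd_eq
        unfold Nat.Coprime
        rw [this]; exact h1
      · apply Nat.Coprime.symm
        rw [Nat.Prime.coprime_iff_not_dvd hs]
        intro hd
        apply hg0
        exact (Nat.ModEq.dvd_iff hk2 (dvd_refl s)).mp hd
    · exact (hk1.of_mul_right _).trans h2
    · intro t ht e
      rcases Finset.mem_insert.mp ht with rfl | ht
      · have : (k : ZMod t) = (g : ZMod t) := (ZMod.natCast_eq_natCast_iff _ _ _).mpr hk2
        rw [this]; exact hg e
      · have hk3 : k ≡ ρ [MOD t] := by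
          have : t ∣ r * ∏ t ∈ T, t := (Finset.dvd_prod_of_mem _ ht).mul_left r
          exact hk1.of_dvd this
        have : (k : ZMod t) = (ρ : ZMod t) := (ZMod.natCast_eq_natCast_iff _ _ _).mpr hk3
        rw [this]; exact h3 t ht e

end Pool.Agent.Hhelper83.NonResidue
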