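import Pool.Agent.Hhelper83.TerjanianJ

/-!
`S`-solutions of `a x^p + b y^q = c z^r` and the factorisation of `u^l + v^l`.
-/

namespace Pool.Agent.Hhelper83.SSol

open Pool.Agent.Hhelper83.Terjanian

/-- `(a,b,c,x,y,z,p,q,r)` is an `S`-solution of `a x^p + b y^q = c z^r`, exactly as in the
problem: positive exponents with `1/p + 1/q + 1/r < 1`, `gcd(ax, by, cz) = 1`, `abc ≠ 0`,
every prime divisor of `abc` lies in `S`, and `x, y, z` are nonzero. -/
structure IsSSolution (S : Finset ℕ) (a b c x y z : ℤ) (p q r : ℕ) : Prop where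
  pos_p : 0 < p
  pos_q : 0 < q
  pos_r : 0 < r
  hyperbolic : (1 : ℚ) / p + 1 / q + 1 / r < 1
  coprime : Int.gcd (Int.gcd (a * x) (b * y) : ℕ) (c * z) = 1
  abc_ne : a * b * c ≠ 0
  unit : ∀ s : ℕ, s.Prime → (s : ℤ) ∣ a * b * c → s ∈ S
  x_ne : x ≠ 0
  y_ne : y ≠ 0
  z_ne : z ≠ 0
  eq : a * x ^ p + b * y ^ q = c * z ^ r

section basic

variable {S : Finset ℕ} {a b c x y z : ℤ} {p q r : ℕ}

theorem IsSSolution.a_ne (h : IsSSolution S a b c x y z p q r) : a ≠ 0 :=
  fun h0 => h.abc_ne (by rw [h0]; ring)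

theorem IsSSolution.b_ne (h : IsSSolution S a b c x y z p q r) : b ≠ 0 :=
  fun h0 => h.abc_ne (by rw [h0]; ring)

theorem IsSSolution.c_ne (h : IsSSolution S a b c x y z p q r) : c ≠ 0 :=
  fun h0 => h.abc_ne (by rw [h0]; ring)

theorem IsSSolution.unit_a (h : IsSSolution S a b c x y z p q r) {s : ℕ} (hs : s.Prime)
    (hd : (s : ℤ) ∣ a) : s ∈ S :=
  h.unit s hs ((hd.mul_right b).mul_right c)

theorem IsSSolution.unit_b (h : IsSSolution S a b c x y z p q r) {s : ℕ} (hs : s.Prime)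
    (hd : (s : ℤ) ∣ b) : s ∈ S :=
  h.unit s hs ((hd.mul_left a).mul_right c)

theorem IsSSolution.unit_c (h : IsSSolution S a b c x y z p q r) {s : ℕ} (hs : s.Prime)
    (hd : (s : ℤ) ∣ c) : s ∈ S :=
  h.unit s hs (hd.mul_left _)

/-- no prime divides two (hence three) of the terms. -/
theorem IsSSolution.not_dvd (h : IsSSolution S a b c x y z p q r) {s : ℕ} (hs : s.Prime)
    (h1 : (s : ℤ) ∣ a * x ^ p) (h2 : (s : ℤ) ∣ b * y ^ q) : False := by
  have hsp : Prime (s : ℤ) := Nat.prime_iff_prime_int.mp hs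
  have h3 : (s : ℤ) ∣ c * z ^ r := by rw [← h.eq]; exact dvd_add h1 h2
  have h1' : (s : ℤ) ∣ a * x := by
    rcases hsp.dvd_or_dvd h1 with h4 | h4
    · exact h4.mul_right _
    · exact (hsp.dvd_of_dvd_pow h4).mul_left _
  have h2' : (s : ℤ) ∣ b * y := by
    rcases hsp.dvd_or_dvd h2 with h4 | h4
    · exact h4.mul_right _
    · exact (hsp.dvd_of_dvd_pow h4).mul_left _
  have h3' : (s : ℤ) ∣ c * z := by
    rcases hsp.dvd_or_dvd h3 with h4 | h4
    · exact h4.mul_right _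
    · exact (hsp.dvd_of_dvd_pow h4).mul_left _
  have h5 : (s : ℤ) ∣ (Int.gcd (Int.gcd (a * x) (b * y) : ℕ) (c * z) : ℕ) := by
    apply Int.dvd_coe_gcd
    · exact Int.dvd_coe_gcd h1' h2'
    · exact h3'
  rw [h.coprime] at h5
  exact hsp.not_isUnit (isUnit_of_dvd_one (by exact_mod_cast h5))

theorem isCoprime_of_forall_prime {u v : ℤ}
    (h : ∀ s : ℕ, s.Prime → (s : ℤ) ∣ u → (s : ℤ) ∣ v → False) : IsCoprime u v := by
  rw [Int.isCoprime_iff_gcd_eq_one]
  by_contra hg
  obtain ⟨s, hs, hsd⟩ := Nat.exists_prime_and_dvd hg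
  exact h s hs ((Int.natCast_dvd_natCast.mpr hsd).trans (Int.gcd_dvd_left _ _))
    ((Int.natCast_dvd_natCast.mpr hsd).trans (Int.gcd_dvd_right _ _))

theorem IsSSolution.isCoprime (h : IsSSolution S a b c x y z p q r) {u v : ℤ} {l m : ℕ}
    (hl : l ≠ 0) (hm : m ≠ 0) (hu : a * x ^ p = u ^ l) (hv : b * y ^ q = v ^ m) :
    IsCoprime u v := by
  apply isCoprime_of_forall_prime
  intro s hs hsu hsv
  refine h.not_dvd hs ?_ ?_
  · rw [hu]; exact dvd_pow hsu hl
  · rw [hv]; exact dvd_pow hsv hm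

end basic

/-- a prime dividing `U x y p` with `x, y` coprime is `p` or `1` mod `p`. -/
theorem prime_dvd_U {x y : ℤ} (hc : IsCoprime x y) {p : ℕ} (hp : p.Prime) {s : ℕ}
    (hs : s.Prime) (h : (s : ℤ) ∣ U x y p) : s ≡ 0 [MOD p] ∨ s ≡ 1 [MOD p] := by
  have : Fact s.Prime := ⟨hs⟩
  have : Fact p.Prime := ⟨hp⟩
  have h1 : (s : ℤ) ∣ x ^ p - y ^ p := by
    rw [← U_mul]; exact h.mul_right _
  by_cases hxy : (s : ℤ) ∣ x - y
  · left
    have h2 := U_modEq_sub x y p s hxy
    have h3 : (s : ℤ) ∣ (p : ℤ) * y ^ (p - 1) := by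
      have := dvd_sub h h2
      simpa using this
    have hsp : Prime (s : ℤ) := Nat.prime_iff_prime_int.mp hs
    rcases hsp.dvd_or_dvd h3 with h4 | h4
    · have : s ∣ p := by exact_mod_cast h4
      have : s = p := (Nat.prime_dvd_prime_iff_eq hs hp).mp this
      rw [this]; simp [Nat.ModEq]
    · exfalso
      have hy : (s : ℤ) ∣ y := hsp.dvd_of_dvd_pow h4
      have hx : (s : ℤ) ∣ x := by
        have := dvd_add hxy hy
        simpa using this
      exact hsp.not_isUnit (hc.isUnit_of_dvd' hx hy)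
  · right
    have hsp : Prime (s : ℤ) := Nat.prime_iff_prime_int.mp hs
    have hy : ¬ (s : ℤ) ∣ y := by
      intro hy
      have hx : (s : ℤ) ∣ x ^ p := by
        have := dvd_add h1 (dvd_pow hy hp.ne_zero)
        simpa using this
      exact hsp.not_isUnit (hc.isUnit_of_dvd' (hsp.dvd_of_dvd_pow hx) hy)
    have hy' : (y : ZMod s) ≠ 0 := by
      rw [Ne, ZMod.intCast_zmod_eq_zero_iff_dvd]; exact hy
    set t : ZMod s := (x : ZMod s) / (y : ZMod s) with ht
    have ht1 : t ^ p = 1 := by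
      rw [ht, div_pow, div_eq_one_iff_eq (pow_ne_zero _ hy')]
      have := (ZMod.intCast_zmod_eq_zero_iff_dvd _ s).mpr h1
      push_cast at this
      exact sub_eq_zero.mp this
    have ht2 : t ≠ 1 := by
      intro h1
      rw [ht, div_eq_one_iff_eq hy'] at h1
      apply hxy
      rw [← ZMod.intCast_zmod_eq_zero_iff_dvd]
      push_cast
      rw [h1, sub_self]
    have ho : orderOf t = p := orderOf_eq_prime ht1 ht2
    have ht0 : t ≠ 0 := by
      rintro h0
      rw [h0, zero_pow hp.ne_zero] at ht1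
      exact zero_ne_one ht1
    have hd : p ∣ s - 1 := by
      rw [← ho]
      exact ZMod.orderOf_dvd_card_sub_one ht0
    have hs1 : 1 ≤ s := hs.one_lt.le
    exact ((Nat.modEq_iff_dvd' hs1).mpr hd).symm

/-- The core factorisation: if `u, v` are coprime, `u^l + v^l = c w^r`, every prime factor of `c`
is neither `0` nor `1` mod `l` and `l ∤ w`, then `(u^l+v^l)/(u+v) = U u (-v) l` is an `r`-th power
and `c ∣ u + v`. -/
theorem core {u v c w : ℤ} (hc : IsCoprime u v) {l : ℕ} (hl : l.Prime) (hl2 : l ≠ 2)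
    (hcS : ∀ s : ℕ, s.Prime → (s : ℤ) ∣ c → ¬ s ≡ 0 [MOD l] ∧ ¬ s ≡ 1 [MOD l])
    (hw : ¬ (l : ℤ) ∣ w) (hc0 : c ≠ 0) (hw0 : w ≠ 0) {r : ℕ}
    (h : u ^ l + v ^ l = c * w ^ r) :
    u ≠ -v ∧ c ∣ u + v ∧ ∃ g : ℤ, U u (-v) l = g ^ r := by
  have hlo : Odd l := hl.odd_of_ne_two hl2
  have hneg : IsCoprime u (-v) := hc.neg_right
  have h1 : (u + v) * U u (-v) l = c * w ^ r := by
    have := U_mul u (-v) l
    rw [hlo.neg_pow] at this
    rw [← h]; linarith
  have hne : u ≠ -v := by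
    intro he
    have : u + v = 0 := by linarith
    rw [this, zero_mul] at h1
    exact (mul_ne_zero hc0 (pow_ne_zero r hw0)) h1.symm
  have hpos := U_pos hne hlo
  -- U coprime to c
  have hUc : IsCoprime (U u (-v) l) c := by
    apply isCoprime_of_forall_prime
    intro s hs hsU hsc
    rcases prime_dvd_U hneg hl hs hsU with h0 | h0
    · exact (hcS s hs hsc).1 h0
    · exact (hcS s hs hsc).2 h0
  -- U coprime to u + v
  have hUs : IsCoprime (U u (-v) l) (u + v) := by
    apply isCoprime_of_forall_prime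
    intro s hs hsU hsc
    have hsp : Prime (s : ℤ) := Nat.prime_iff_prime_int.mp hs
    have h2 := U_modEq_sub u (-v) l s (by simpa using hsc)
    have h3 : (s : ℤ) ∣ (l : ℤ) * (-v) ^ (l - 1) := by
      have := dvd_sub hsU h2
      simpa using this
    rcases hsp.dvd_or_dvd h3 with h4 | h4
    · have : s ∣ l := by exact_mod_cast h4
      have hsl : s = l := (Nat.prime_dvd_prime_iff_eq hs hl).mp this
      have h5 : (s : ℤ) ∣ c * w ^ r := by rw [← h1]; exact hsc.mul_right _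
      rcases hsp.dvd_or_dvd h5 with h6 | h6
      · apply (hcS s hs h6).1
        rw [hsl]; simp [Nat.ModEq]
      · apply hw
        rw [← hsl]
        exact hsp.dvd_of_dvd_pow h6
    · have hv : (s : ℤ) ∣ v := by
        have := hsp.dvd_of_dvd_pow h4
        simpa using this
      have hu : (s : ℤ) ∣ u := by
        have := dvd_sub hsc hv
        simpa using this
      exact hsp.not_isUnit (hc.isUnit_of_dvd' hu hv)
  -- c divides u + v
  have hcd : c ∣ u + v := by
    have : c ∣ (u + v) * U u (-v) l := by rw [h1]; exact Dvd.intro _ rfl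
    exact hUc.symm.dvd_of_dvd_mul_right this
  refine ⟨hne, hcd, ?_⟩
  obtain ⟨t, ht⟩ := hcd
  have h2 : U u (-v) l * t = w ^ r := by
    apply mul_left_cancel₀ hc0
    rw [← h1, ht]; ring
  have h3 : IsCoprime (U u (-v) l) t := by
    rw [ht] at hUs
    exact hUs.of_mul_right_right
  obtain ⟨d, hd⟩ := exists_associated_pow_of_mul_eq_pow' h3 h2
  rcases Int.associated_iff.mp hd with h4 | h4
  · exact ⟨d, h4.symm⟩
  · rcases Nat.even_or_odd r with he | ho
    · exfalso
      have h5 : 0 ≤ d ^ r := he.pow_nonneg d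
      linarith
    · exact ⟨-d, by rw [ho.neg_pow]; linarith⟩

/-- If moreover the prime `s` divides `c` (so `s ∣ u + v`) and `r ∣ l - 1`, then `l` is an `r`-th
power modulo `s`. -/
theorem residue {u v g : ℤ} (hc : IsCoprime u v) {l r : ℕ} (hrl : r ∣ l - 1)
    {s : ℕ} (hs : s.Prime) (hsuv : (s : ℤ) ∣ u + v) (hg : U u (-v) l = g ^ r) :
    ∃ e : ZMod s, e ^ r = (l : ZMod s) := by
  have : Fact s.Prime := ⟨hs⟩
  have hsp : Prime (s : ℤ) := Nat.prime_iff_prime_int.mp hs
  have h2 := U_modEq_sub u (-v) l s (by simpa using hsuv)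
  have hv : ((-v : ℤ) : ZMod s) ≠ 0 := by
    rw [Ne, ZMod.intCast_zmod_eq_zero_iff_dvd]
    intro hd
    have hv : (s : ℤ) ∣ v := by simpa using hd
    have hu : (s : ℤ) ∣ u := by
      have := dvd_sub hsuv hv
      simpa using this
    exact hsp.not_isUnit (hc.isUnit_of_dvd' hu hv)
  obtain ⟨k, hk⟩ := hrl
  have h3 : ((g : ℤ) : ZMod s) ^ r = (l : ZMod s) * (((-v : ℤ) : ZMod s) ^ k) ^ r := by
    have := (ZMod.intCast_zmod_eq_zero_iff_dvd _ s).mpr h2
    rw [hg, hk] at this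
    push_cast at this
    rw [sub_eq_zero] at this
    rw [this, ← pow_mul, mul_comm k r]
    push_cast
    rfl
  refine ⟨(g : ZMod s) / (((-v : ℤ) : ZMod s) ^ k), ?_⟩
  rw [div_pow, h3, mul_div_assoc, div_self (pow_ne_zero _ (pow_ne_zero _ hv)), mul_one]

end Pool.Agent.Hhelper83.SSol
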