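import Pool.Agent.Hhelper83.Terjanian2

/-!
The parity case `x ≡ 2 mod 4`, `y` odd: `U ℓ = ℓ g^2` with `ℓ ∣ x - y` is impossible for primes
`ℓ ≥ 5`.
-/

namespace Pool.Agent.Hhelper83.Terjanian

open Finset NumberTheorySymbols

variable {x y : ℤ}

theorem h8_IV (hne : x ≠ y) (hy : Odd y) (hx : x % 4 = 2) {n : ℕ} (hn : Odd n) (hn3 : 3 ≤ n) :
    (U x y n).natAbs % 8 = ((5 + x * y) % 8).toNat := by
  have hxe : Even x := by rw [Int.even_iff]; omega
  have h := U_mod_eight hxe hy hn hn3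
  have h' : U x y n % 8 = (1 + x * y + x ^ 2) % 8 := h
  have hpos := U_pos hne hn
  have e : ((U x y n).natAbs : ℤ) = U x y n := Int.natAbs_of_nonneg hpos.le
  obtain ⟨w, hw⟩ : ∃ w, x = 4 * w + 2 := ⟨x / 4, by omega⟩
  have : x ^ 2 = 8 * (2 * w ^ 2 + 2 * w) + 4 := by rw [hw]; ring
  rw [this] at h'
  omega

theorem h4_IV (hne : x ≠ y) (hy : Odd y) (hx : x % 4 = 2) {n : ℕ} (hn : Odd n) (hn3 : 3 ≤ n) :
    (U x y n).natAbs % 4 = 3 := by
  have h := h8_IV hne hy hx hn hn3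
  obtain ⟨w, hw⟩ : ∃ w, x = 4 * w + 2 := ⟨x / 4, by omega⟩
  obtain ⟨v, hv⟩ := hy
  have : x * y = 4 * (2 * w * v + w + v) + 2 := by rw [hw, hv]; ring
  omega

theorem hQ_IV (hc : IsCoprime x y) (hne : x ≠ y) (hy : Odd y) (hx : x % 4 = 2) {n : ℕ}
    (hn : Odd n) (hn3 : 3 ≤ n) : J(x * y | (U x y n).natAbs) = 1 := by
  have hpos := U_pos hne hn
  have e : ((U x y n).natAbs : ℤ) = U x y n := Int.natAbs_of_nonneg hpos.le
  have h8 := h8_IV hne hy hx hn hn3
  have h4 := h4_IV hne hy hx hn hn3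
  have hodd : Odd (U x y n).natAbs := by rw [Nat.odd_iff]; omega
  obtain ⟨x', hx'⟩ : ∃ x', x = 2 * x' := ⟨x / 2, by omega⟩
  have hx'o : Odd x' := by rw [Int.odd_iff]; omega
  have hy0 : y.natAbs ≠ 0 := by
    rw [Int.natAbs_ne_zero]; rintro rfl; simp at hy
  have hx'0 : x'.natAbs ≠ 0 := by
    rw [Int.natAbs_ne_zero]; rintro rfl; simp at hx'o
  have hd : x' ∣ x := by rw [hx']; exact Dvd.intro_left _ rfl
  -- J(U | |x' y|) = 1
  have hone : J(U x y n | (x' * y).natAbs) = 1 := by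
    rw [Int.natAbs_mul, jacobiSym.mul_right' _ hx'0 hy0, jacobi_U_dvd_left hc hn hd]
    rw [U_comm, jacobi_U_left hc.symm hn]
    norm_num
  have hxy : x * y = 2 * (x' * y) := by rw [hx']; ring
  rw [hxy, jacobiSym.mul_left, jacobiSym.at_two hodd, ZMod.χ₈_nat_mod_eight]
  have hoddxy : Odd (x' * y) := hx'o.mul hy
  rw [Int.odd_iff] at hoddxy
  have hcase : (x' * y) % 4 = 1 ∨ (x' * y) % 4 = 3 := by omega
  rcases hcase with h1 | h3
  · have : (U x y n).natAbs % 8 = 7 := by omega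
    rw [this, jacobi_signed h1 hodd, e, hone]
    decide
  · have : (U x y n).natAbs % 8 = 3 := by omega
    rw [this]
    have hneg : x' * y = -(-(x' * y)) := by ring
    have hD : (-(x' * y)) % 4 = 1 := by omega
    rw [hneg, jacobiSym.neg _ hodd, jacobi_signed hD hodd, e, Int.natAbs_neg, hone,
      ZMod.χ₄_nat_three_mod_four h4]
    decide

theorem flip_IV (hne : x ≠ y) (hy : Odd y) (hx : x % 4 = 2) {m n : ℕ} (hm : Odd m) (hn : Odd n)
    (hm3 : 3 ≤ m) (hn3 : 3 ≤ n) :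
    J(U x y m | (U x y n).natAbs) = - J(U x y n | (U x y m).natAbs) := by
  have em : ((U x y m).natAbs : ℤ) = U x y m := Int.natAbs_of_nonneg (U_pos hne hm).le
  have en : ((U x y n).natAbs : ℤ) = U x y n := Int.natAbs_of_nonneg (U_pos hne hn).le
  have := jacobiSym.quadratic_reciprocity_three_mod_four (h4_IV hne hy hx hm hm3)
    (h4_IV hne hy hx hn hn3)
  rw [em, en] at this
  exact this

/-- the recursion `F(n + d, n + 2d) = F(n, n + d)` for even `d`, `n` odd. -/
theorem step_IV (hc : IsCoprime x y) (hne : x ≠ y) (hy : Odd y) (hx : x % 4 = 2) {n d : ℕ}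
    (hn : Odd n) (hd : Even d) (hd2 : 2 ≤ d) :
    J(U x y (n + d) | (U x y (n + 2 * d)).natAbs) = J(U x y n | (U x y (n + d)).natAbs) := by
  have hn1 : 1 ≤ n := hn.pos
  have h1 : Odd (n + d) := hn.add_even hd
  have h2 : Odd (n + 2 * d) := hn.add_even (even_two_mul d)
  rw [flip_IV hne hy hx h1 h2 (by omega) (by omega)]
  have e : n + 2 * d = 2 * (n + d) - n := by omega
  rw [e, jsub hne h1 (hQ_IV hc hne hy hx h1 (by omega)) n (by omega)]
  have h4 := h4_IV hne hy hx h1 (by omega)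
  have hodd : Odd (U x y (n + d)).natAbs := by rw [Nat.odd_iff]; omega
  rw [jacobiSym.neg _ hodd, ZMod.χ₄_nat_three_mod_four h4]
  ring

theorem F2 (hc : IsCoprime x y) (hne : x ≠ y) (hy : Odd y) (hx : x % 4 = 2) (t : ℕ) :
    J(U x y (2 * t + 1) | (U x y (2 * t + 1 + 2)).natAbs) = 1 := by
  induction t with
  | zero => simp [U_one]
  | succ t ih =>
    have := step_IV hc hne hy hx (n := 2 * t + 1) (d := 2) ⟨t, rfl⟩ (by decide) le_rfl
    have e1 : 2 * (t + 1) + 1 = 2 * t + 1 + 2 := by ring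
    have e2 : 2 * t + 1 + 2 + 2 = 2 * t + 1 + 2 * 2 := by ring
    rw [e1, e2, this]
    exact ih

theorem F6 (hc : IsCoprime x y) (hne : x ≠ y) (hy : Odd y) (hx : x % 4 = 2) (t : ℕ) :
    J(U x y (6 * t + 1) | (U x y (6 * t + 1 + 6)).natAbs) = 1 := by
  induction t with
  | zero => simp [U_one]
  | succ t ih =>
    have := step_IV hc hne hy hx (n := 6 * t + 1) (d := 6) ⟨3 * t, by ring⟩ (by decide) (by norm_num)
    have e1 : 6 * (t + 1) + 1 = 6 * t + 1 + 6 := by ring
    have e2 : 6 * t + 1 + 6 + 6 = 6 * t + 1 + 2 * 6 := by ring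
    rw [e1, e2, this]
    exact ih

theorem F6' (hc : IsCoprime x y) (hne : x ≠ y) (hy : Odd y) (hx : x % 4 = 2) (t : ℕ) :
    J(U x y (6 * t + 5) | (U x y (6 * t + 5 + 6)).natAbs) = -1 := by
  induction t with
  | zero =>
    have h5 : Odd 5 := by decide
    have h11 : Odd 11 := by decide
    have h := flip_IV hne hy hx h5 h11 (by norm_num) (by norm_num)
    have h' := jadd hne h5 (hQ_IV hc hne hy hx h5 (by norm_num)) 1
    norm_num at h' ⊢
    rw [h, h']
    simp [U_one]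
  | succ t ih =>
    have := step_IV hc hne hy hx (n := 6 * t + 5) (d := 6) ⟨3 * t + 2, by ring⟩ (by decide)
      (by norm_num)
    have e1 : 6 * (t + 1) + 5 = 6 * t + 5 + 6 := by ring
    have e2 : 6 * t + 5 + 6 + 6 = 6 * t + 5 + 2 * 6 := by ring
    rw [e1, e2, this]
    exact ih

theorem no_l_sq_IV (hc : IsCoprime x y) (hne : x ≠ y) (hy : Odd y) (hx : x % 4 = 2)
    {l : ℕ} (hl : l.Prime) (hl5 : 5 ≤ l) (hd : (l : ℤ) ∣ x - y) (g : ℤ)
    (hg : U x y l = l * g ^ 2) : False := by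
  have hlo : Odd l := hl.odd_of_ne_two (by omega)
  -- l ≡ 3 mod 4
  have hl4 : l % 4 = 3 := by
    have h4 := h4_IV hne hy hx hlo (by omega)
    have e : ((U x y l).natAbs : ℤ) = U x y l := Int.natAbs_of_nonneg (U_pos hne hlo).le
    have h5 : (U x y l) % 4 = 3 := by omega
    rw [hg] at h5
    have hsq : g ^ 2 % 4 = 0 ∨ g ^ 2 % 4 = 1 := by
      rcases Int.even_or_odd g with ⟨m, hm⟩ | ⟨m, hm⟩
      · left
        have : g ^ 2 = 4 * m ^ 2 := by rw [hm]; ring
        omega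
      · right
        have : g ^ 2 = 4 * (m ^ 2 + m) + 1 := by rw [hm]; ring
        omega
    rw [Int.mul_emod] at h5
    rcases hsq with h | h <;> rw [h] at h5 <;> omega
  -- the general consequence
  have key : ∀ n : ℕ, Odd n → 3 ≤ n →
      J(U x y n | (U x y l).natAbs) ≠ 0 →
      J(U x y n | (U x y l).natAbs) = J((n : ℤ) | l) := by
    intro n hn hn3 hne0
    have hf := flip_IV hne hy hx hn hlo hn3 (by omega)
    rw [hf] at hne0 ⊢
    have hne1 : J(U x y l | (U x y n).natAbs) ≠ 0 := by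
      intro h; apply hne0; rw [h]; norm_num
    rw [hg] at hne1 ⊢
    rw [jacobi_l_sq g hne1]
    have h5 : J((l : ℤ) | (U x y n).natAbs) = - J(((U x y n).natAbs : ℤ) | l) :=
      jacobiSym.quadratic_reciprocity_three_mod_four hl4 (h4_IV hne hy hx hn hn3)
    rw [h5, Int.natAbs_of_nonneg (U_pos hne hn).le, jacobi_U_mod_l hc hl hd hn]
    ring
  have hl8 : l % 8 = 3 ∨ l % 8 = 7 := by omega
  rcases hl8 with h8 | h8
  · -- l ≡ 3 mod 8
    have hl11 : 11 ≤ l := by
      by_contra hlt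
      have : l = 3 ∨ l = 11 := by omega
      omega
    have h3l : ¬ 3 ∣ l := by
      intro h3
      have := (Nat.prime_dvd_prime_iff_eq Nat.prime_three hl).mp h3
      omega
    have hn6 : ((l - 6 : ℕ) : ℤ) = (l : ℤ) - 6 := by
      rw [Nat.cast_sub (by omega)]; norm_num
    have hmod : J(((l - 6 : ℕ) : ℤ) | l) = J((-6 : ℤ) | l) := by
      apply jacobiSym.mod_left'
      rw [hn6]
      have : (l : ℤ) - 6 = -6 + l * 1 := by ring
      rw [this, Int.add_mul_emod_self_left]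
    have hJ6 : J((-6 : ℤ) | l) = - J((l : ℤ) | 3) := by
      have e6 : (-6 : ℤ) = (-2) * ((3 : ℕ) : ℤ) := by norm_num
      have hχ : ZMod.χ₈' (l : ZMod 8) = 1 := by
        rw [ZMod.χ₈'_nat_eq_if_mod_eight, h8, if_neg (by omega)]
        simp
      rw [e6, jacobiSym.mul_left, jacobiSym.at_neg_two hlo, hχ,
        jacobiSym.quadratic_reciprocity_three_mod_four (by norm_num) hl4]
      ring
    have hodd6 : Odd (l - 6) := by rw [Nat.odd_iff]; omega
    have hl3 : l % 3 = 1 ∨ l % 3 = 2 := by omega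
    rcases hl3 with h3 | h3
    · obtain ⟨t, ht⟩ : ∃ t, l = 6 * t + 1 + 6 := ⟨(l - 7) / 6, by omega⟩
      have hF := F6 hc hne hy hx t
      rw [← ht] at hF
      have e : 6 * t + 1 = l - 6 := by omega
      rw [e] at hF
      have hk := key (l - 6) hodd6 (by omega) (by rw [hF]; norm_num)
      rw [hF, hmod, hJ6] at hk
      have : J((l : ℤ) | 3) = J((1 : ℤ) | 3) := by
        apply jacobiSym.mod_left'
        omega
      rw [this, jacobiSym.one_left] at hk
      norm_num at hk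
    · obtain ⟨t, ht⟩ : ∃ t, l = 6 * t + 5 + 6 := ⟨(l - 11) / 6, by omega⟩
      have hF := F6' hc hne hy hx t
      rw [← ht] at hF
      have e : 6 * t + 5 = l - 6 := by omega
      rw [e] at hF
      have hk := key (l - 6) hodd6 (by omega) (by rw [hF]; norm_num)
      rw [hF, hmod, hJ6] at hk
      have : J((l : ℤ) | 3) = J((-1 : ℤ) | 3) := by
        apply jacobiSym.mod_left'
        omega
      rw [this, jacobiSym.at_neg_one (by decide)] at hk
      have h34 : ZMod.χ₄ ((3 : ℕ) : ZMod 4) = -1 := by decide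
      rw [h34] at hk
      norm_num at hk
  · -- l ≡ 7 mod 8
    have hn2 : ((l - 2 : ℕ) : ℤ) = (l : ℤ) - 2 := by
      rw [Nat.cast_sub (by omega)]; norm_num
    have hmod : J(((l - 2 : ℕ) : ℤ) | l) = J((-2 : ℤ) | l) := by
      apply jacobiSym.mod_left'
      rw [hn2]
      have : (l : ℤ) - 2 = -2 + l * 1 := by ring
      rw [this, Int.add_mul_emod_self_left]
    obtain ⟨t, ht⟩ : ∃ t, l = 2 * t + 1 + 2 := ⟨(l - 3) / 2, by omega⟩
    have hF := F2 hc hne hy hx t
    rw [← ht] at hF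
    have e : 2 * t + 1 = l - 2 := by omega
    rw [e] at hF
    have hk := key (l - 2) (by rw [Nat.odd_iff]; omega) (by omega) (by rw [hF]; norm_num)
    have hχ : ZMod.χ₈' (l : ZMod 8) = -1 := by
      rw [ZMod.χ₈'_nat_eq_if_mod_eight, h8, if_neg (by omega)]
      simp
    rw [hF, hmod, jacobiSym.at_neg_two hlo, hχ] at hk
    norm_num at hk

end Pool.Agent.Hhelper83.Terjanian
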