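import Pool.Agent.Hhelper83.EvenCase
import Pool.Agent.Hhelper83.Terjanian3

/-! The factorisation of `u^l + v^l = c w^r` when `l ∣ w`, and the parity conclusions. -/

namespace Pool.Agent.Hhelper83.SSol

open Pool.Agent.Hhelper83.Terjanian

/-- The second case: `l ∣ w`. -/
theorem core_two {u v c w : ℤ} (hc : IsCoprime u v) {l : ℕ} (hl : l.Prime) (hl2 : l ≠ 2)
    (hcS : ∀ s : ℕ, s.Prime → (s : ℤ) ∣ c → ¬ s ≡ 0 [MOD l] ∧ ¬ s ≡ 1 [MOD l])
    (hw : (l : ℤ) ∣ w) (hc0 : c ≠ 0) (hw0 : w ≠ 0) {r : ℕ} (hr : r ≠ 0)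
    (h : u ^ l + v ^ l = c * w ^ r) :
    u ≠ -v ∧ (l : ℤ) ∣ u + v ∧ ∃ g : ℤ, U u (-v) l = l * g ^ r := by
  have hlo : Odd l := hl.odd_of_ne_two hl2
  have hlp : Prime (l : ℤ) := Nat.prime_iff_prime_int.mp hl
  have : Fact l.Prime := ⟨hl⟩
  have hneg : IsCoprime u (-v) := hc.neg_right
  have h1 : (u + v) * U u (-v) l = c * w ^ r := by
    have := U_mul u (-v) l
    rw [hlo.neg_pow] at this
    rw [← h]; linarith
  have hne : u ≠ -v := by
    intro he
    have : u + v = 0 := by linarith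
    rw [this, zero_mul] at h1
    exact (mul_ne_zero hc0 (pow_ne_zero r hw0)) h1.symm
  have hpos := U_pos hne hlo
  -- l divides u + v
  have hluv : (l : ℤ) ∣ u + v := by
    have h2 : (l : ℤ) ∣ u ^ l + v ^ l := by
      rw [h]; exact (dvd_pow hw hr).mul_left c
    have h3 : ((u ^ l + v ^ l : ℤ) : ZMod l) = ((u + v : ℤ) : ZMod l) := by
      push_cast
      rw [ZMod.pow_card, ZMod.pow_card]
    rw [← ZMod.intCast_zmod_eq_zero_iff_dvd] at h2 ⊢
    rw [← h3]; exact h2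
  have hlv : ¬ (l : ℤ) ∣ v := by
    intro hv
    have hu : (l : ℤ) ∣ u := by
      have := dvd_sub hluv hv
      simpa using this
    exact hlp.not_isUnit (hc.isUnit_of_dvd' hu hv)
  -- U ≡ l (-v)^(l-1) mod l^2
  obtain ⟨b, hb⟩ := hluv
  have hU2 : (l : ℤ) ^ 2 ∣ U u (-v) l - l * (-v) ^ (l - 1) := by
    have h2 := odd_sq_dvd_geom_sum₂_sub (R := ℤ) (a := -v) (b := b) (p := l) hlo
    have e : -v + (l : ℤ) * b = u := by rw [← hb]; ring
    rw [e] at h2
    exact h2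
  obtain ⟨t2, ht2⟩ := hU2
  obtain ⟨U', hU'⟩ : (l : ℤ) ∣ U u (-v) l := by
    refine ⟨l * t2 + (-v) ^ (l - 1), ?_⟩
    have : U u (-v) l = (l : ℤ) ^ 2 * t2 + l * (-v) ^ (l - 1) := by rw [← ht2]; ring
    rw [this]; ring
  have hl0 : (l : ℤ) ≠ 0 := by exact_mod_cast hl.ne_zero
  have hlU' : ¬ (l : ℤ) ∣ U' := by
    intro hd
    have h3 : U' = l * t2 + (-v) ^ (l - 1) := by
      apply mul_left_cancel₀ hl0
      rw [← hU']
      have : U u (-v) l = (l : ℤ) ^ 2 * t2 + l * (-v) ^ (l - 1) := by rw [← ht2]; ring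
      rw [this]; ring
    rw [h3] at hd
    have h4 : (l : ℤ) ∣ (-v) ^ (l - 1) := (dvd_add_right (Dvd.intro _ rfl)).mp hd
    have := hlp.dvd_of_dvd_pow h4
    exact hlv (by simpa using this)
  have hluv : (l : ℤ) ∣ u + v := ⟨b, hb⟩
  -- U' coprime to c
  have hUc : IsCoprime U' c := by
    apply isCoprime_of_forall_prime
    intro s hs hsU hsc
    rcases prime_dvd_U hneg hl hs (by rw [hU']; exact hsU.mul_left _) with h0 | h0
    · exact (hcS s hs hsc).1 h0
    · exact (hcS s hs hsc).2 h0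
  -- U' coprime to u + v
  have hUs : IsCoprime U' (u + v) := by
    apply isCoprime_of_forall_prime
    intro s hs hsU hsc
    have hsp : Prime (s : ℤ) := Nat.prime_iff_prime_int.mp hs
    have h2 := U_modEq_sub u (-v) l s (by simpa using hsc)
    have h3 : (s : ℤ) ∣ (l : ℤ) * (-v) ^ (l - 1) := by
      have hsU2 : (s : ℤ) ∣ U u (-v) l := by rw [hU']; exact hsU.mul_left _
      have := dvd_sub hsU2 h2
      simpa using this
    rcases hsp.dvd_or_dvd h3 with h4 | h4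
    · have : s ∣ l := by exact_mod_cast h4
      have hsl : s = l := (Nat.prime_dvd_prime_iff_eq hs hl).mp this
      rw [hsl] at hsU
      exact hlU' hsU
    · have hv : (s : ℤ) ∣ v := by
        have := hsp.dvd_of_dvd_pow h4
        simpa using this
      have hu : (s : ℤ) ∣ u := by
        have := dvd_sub hsc hv
        simpa using this
      exact hsp.not_isUnit (hc.isUnit_of_dvd' hu hv)
  have hUl : IsCoprime U' (l : ℤ) := (hlp.coprime_iff_not_dvd.mpr hlU').symm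
  -- c divides l (u + v)
  have h1' : (l * (u + v)) * U' = c * w ^ r := by
    rw [← h1, hU']; ring
  have hcd : c ∣ l * (u + v) := by
    have : c ∣ (l * (u + v)) * U' := by rw [h1']; exact Dvd.intro _ rfl
    exact hUc.symm.dvd_of_dvd_mul_right this
  refine ⟨hne, hluv, ?_⟩
  obtain ⟨t, ht⟩ := hcd
  have h2 : U' * t = w ^ r := by
    apply mul_left_cancel₀ hc0
    rw [← h1', ht]; ring
  have h3 : IsCoprime U' t := by
    have h4 : IsCoprime U' (l * (u + v)) := hUl.mul_right hUs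
    rw [ht] at h4
    exact h4.of_mul_right_right
  have hU'pos : 0 < U' := by
    rw [hU'] at hpos
    have : (0 : ℤ) < l := by exact_mod_cast hl.pos
    exact (mul_pos_iff_of_pos_left this).mp hpos
  obtain ⟨d, hd⟩ := exists_associated_pow_of_mul_eq_pow' h3 h2
  rcases Int.associated_iff.mp hd with h4 | h4
  · exact ⟨d, by rw [hU', h4]⟩
  · rcases Nat.even_or_odd r with he | ho
    · exfalso
      have h5 : 0 ≤ d ^ r := he.pow_nonneg d
      linarith
    · exact ⟨-d, by rw [hU', ho.neg_pow, h4]; ring⟩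

/-- In the second case with `r` even and `l ≥ 5`, `4 ∣ u^l + v^l`. -/
theorem four_dvd_of_l_sq {u v : ℤ} (hcop : IsCoprime u v) {l : ℕ} (hl : l.Prime) (hl5 : 5 ≤ l)
    (hu0 : u ≠ 0) (hv0 : v ≠ 0)
    (hne : u ≠ -v) (hluv : (l : ℤ) ∣ u + v) (g : ℤ) (hg : U u (-v) l = l * g ^ 2) :
    Odd u ∧ Odd v ∧ (4 : ℤ) ∣ u + v := by
  have hl2 : l ≠ 2 := by omega
  have hlo : Odd l := hl.odd_of_ne_two hl2
  have hneg : IsCoprime u (-v) := hcop.neg_right
  have hd : (l : ℤ) ∣ u - (-v) := by simpa using hluv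
  -- the even cases
  have even_case : ∀ x y : ℤ, IsCoprime x y → x ≠ y → x ≠ 0 → Even x → (l : ℤ) ∣ x - y →
      U x y l = l * g ^ 2 → False := by
    intro x y hc hxy hx0 hxe hd hg
    have hyo : Odd y := by
      rw [← Int.not_even_iff_odd]
      intro hye
      exact Int.prime_two.not_isUnit (hc.isUnit_of_dvd' hxe.two_dvd hye.two_dvd)
    have hcase : x % 4 = 0 ∨ x % 4 = 2 := by
      rw [Int.even_iff] at hxe; omega
    rcases hcase with h0 | h2
    · have h4 : (4 : ℤ) ∣ x := Int.dvd_of_emod_eq_zero h0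
      exact no_l_sq_of_one hc hxy (hQ_III hc hxy hyo h4 hx0) (h4_III hxy hyo h4) hl hl2 hd g hg
    · exact no_l_sq_IV hc hxy hyo h2 hl hl5 hd g hg
  rcases Int.even_or_odd u with hue | huo
  · exact (even_case u (-v) hneg hne hu0 hue hd hg).elim
  rcases Int.even_or_odd v with hve | hvo
  · exfalso
    refine even_case (-v) u hneg.symm (Ne.symm hne) (neg_ne_zero.mpr hv0) hve.neg ?_ ?_
    · have : -v - u = -(u - -v) := by ring
      rw [this]; exact hd.neg_right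
    · rw [U_comm]; exact hg
  refine ⟨huo, hvo, ?_⟩
  by_contra h4
  have h4' : (4 : ℤ) ∣ u + (-v) := by
    rw [Int.odd_iff] at huo hvo
    omega
  exact no_l_sq_of_one hneg hne (hQ_II hneg hne hvo.neg h4') (h4_II hne hvo.neg h4') hl hl2 hd g hg

/-- Main dichotomy for `r` even: `l ∣ w ↔ 4 ∣ c w^r`, and `u v ≢ 2 mod 4`. -/
theorem dichotomy {u v c w : ℤ} (hcop : IsCoprime u v) {l : ℕ} (hl : l.Prime) (hl5 : 5 ≤ l)
    (hcS : ∀ s : ℕ, s.Prime → (s : ℤ) ∣ c → ¬ s ≡ 0 [MOD l] ∧ ¬ s ≡ 1 [MOD l])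
    (hc0 : c ≠ 0) (hw0 : w ≠ 0) (hu0 : u ≠ 0) (hv0 : v ≠ 0)
    (heq : u ^ l + v ^ l = c * w ^ 2) :
    ((l : ℤ) ∣ w ↔ (4 : ℤ) ∣ c * w ^ 2) ∧ ¬ u * v ≡ 2 [ZMOD 4] := by
  have hl2 : l ≠ 2 := by omega
  by_cases hw : (l : ℤ) ∣ w
  · obtain ⟨hne, hluv, g, hg⟩ := core_two hcop hl hl2 hcS hw hc0 hw0 two_ne_zero heq
    obtain ⟨huo, hvo, h4⟩ := four_dvd_of_l_sq hcop hl hl5 hu0 hv0 hne hluv g hg
    refine ⟨⟨fun _ => ?_, fun _ => hw⟩, ?_⟩
    · rw [← heq]
      have hlo : Odd l := hl.odd_of_ne_two hl2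
      have : U u (-v) l * (u - (-v)) = u ^ l + v ^ l := by
        rw [U_mul, hlo.neg_pow]; ring
      rw [← this]
      exact Dvd.dvd.mul_left (by simpa using h4) _
    · intro h2
      have h3 : Odd (u * v) := huo.mul hvo
      have h2' : u * v % 4 = 2 := h2
      rw [Int.odd_iff] at h3
      omega
  · obtain ⟨hne, -, t, ht⟩ := core hcop hl hl2 hcS hw hc0 hw0 heq
    refine ⟨⟨fun h => absurd h hw, fun h4 => ?_⟩, ?_⟩
    · exfalso
      exact four_case hcop hl hl2 hne (by rw [heq]; exact h4) t ht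
    · intro h2
      exact two_case hl hl2 h2 t ht

end Pool.Agent.Hhelper83.SSol
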