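import Mathlib

/-!
Jacobi symbols of the numbers `(x^n - y^n)/(x - y)` following Terjanian and Rotkiewicz.
-/

namespace Pool.Agent.Hhelper83.Terjanian

open Finset NumberTheorySymbols

/-- `U x y n = (x^n - y^n)/(x - y)` as a polynomial expression. -/
def U (x y : ℤ) (n : ℕ) : ℤ := ∑ i ∈ range n, x ^ i * y ^ (n - 1 - i)

theorem U_mul (x y : ℤ) (n : ℕ) : U x y n * (x - y) = x ^ n - y ^ n :=
  geom_sum₂_mul x y n

theorem U_one (x y : ℤ) : U x y 1 = 1 := by simp [U]

theorem U_add {x y : ℤ} (hxy : x ≠ y) (n k : ℕ) :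
    U x y (k + 2 * n) = U x y n * (x ^ (n + k) + y ^ (n + k)) + (x * y) ^ n * U x y k := by
  have h : x - y ≠ 0 := sub_ne_zero.mpr hxy
  apply mul_right_cancel₀ h
  have e1 := U_mul x y (k + 2 * n)
  have e2 := U_mul x y n
  have e3 := U_mul x y k
  rw [e1]
  have : (U x y n * (x ^ (n + k) + y ^ (n + k)) + (x * y) ^ n * U x y k) * (x - y)
      = (U x y n * (x - y)) * (x ^ (n + k) + y ^ (n + k)) + (x * y) ^ n * (U x y k * (x - y)) := by
    ring
  rw [this, e2, e3]
  ring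

theorem U_sub {x y : ℤ} (hxy : x ≠ y) (n k : ℕ) (hk : k ≤ 2 * n) :
    (x * y) ^ k * U x y (2 * n - k) =
      U x y n * (x ^ n * y ^ k + x ^ k * y ^ n) - (x * y) ^ n * U x y k := by
  have h : x - y ≠ 0 := sub_ne_zero.mpr hxy
  apply mul_right_cancel₀ h
  have e1 := U_mul x y (2 * n - k)
  have e2 := U_mul x y n
  have e3 := U_mul x y k
  have l : (x * y) ^ k * U x y (2 * n - k) * (x - y)
      = (x * y) ^ k * (U x y (2 * n - k) * (x - y)) := by ring
  have r : (U x y n * (x ^ n * y ^ k + x ^ k * y ^ n) - (x * y) ^ n * U x y k) * (x - y)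
      = (U x y n * (x - y)) * (x ^ n * y ^ k + x ^ k * y ^ n)
        - (x * y) ^ n * (U x y k * (x - y)) := by ring
  rw [l, r, e1, e2, e3]
  have hx : x ^ k * x ^ (2 * n - k) = x ^ (2 * n) := by
    rw [← pow_add]; congr 1; omega
  have hy : y ^ k * y ^ (2 * n - k) = y ^ (2 * n) := by
    rw [← pow_add]; congr 1; omega
  have : (x * y) ^ k * (x ^ (2 * n - k) - y ^ (2 * n - k))
      = (x ^ k * x ^ (2 * n - k)) * y ^ k - x ^ k * (y ^ k * y ^ (2 * n - k)) := by
    rw [mul_pow]; ring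
  rw [this, hx, hy]
  ring

/-- modulo `x - y`, `U x y n` is `n y^(n-1)`. -/
theorem U_modEq_sub (x y : ℤ) (n : ℕ) (m : ℤ) (h : m ∣ x - y) :
    m ∣ U x y n - n * y ^ (n - 1) := by
  have hxy : x ≡ y [ZMOD m] := (Int.modEq_iff_dvd.mpr (by simpa using (dvd_neg.mpr h))).symm.symm
  have : U x y n ≡ U y y n [ZMOD m] := by
    unfold U
    refine Int.ModEq.sum ?_
    intro i _
    exact (hxy.pow i).mul_right _
  have h2 : U y y n = n * y ^ (n - 1) := by
    unfold U
    simpa using geom_sum₂_self y n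
  rw [h2] at this
  exact (Int.modEq_iff_dvd.mp this.symm)

/-- modulo `x`, `U x y n` is `y^(n-1)`. -/
theorem U_modEq_left (x y : ℤ) (n : ℕ) (hn : 0 < n) :
    U x y n ≡ y ^ (n - 1) [ZMOD x] := by
  obtain ⟨k, rfl⟩ : ∃ k, n = k + 1 := ⟨n - 1, by omega⟩
  unfold U
  rw [Finset.sum_range_succ']
  simp only [pow_zero, one_mul, Nat.sub_zero]
  have : ∑ i ∈ range k, x ^ (i + 1) * y ^ (k + 1 - 1 - (i + 1)) ≡ 0 [ZMOD x] := by
    rw [Int.modEq_zero_iff_dvd]
    apply Finset.dvd_sum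
    intro i _
    exact Dvd.dvd.mul_right (dvd_pow_self x (Nat.succ_ne_zero i)) _
  simpa using this.add_right (y ^ (k + 1 - 1))

theorem U_comm (x y : ℤ) (n : ℕ) : U x y n = U y x n := by
  unfold U
  rw [← geom_sum₂_comm]

theorem U_pos {x y : ℤ} (hxy : x ≠ y) {n : ℕ} (hn : Odd n) : 0 < U x y n := by
  have h := U_mul x y n
  rcases lt_or_gt_of_ne hxy with hlt | hgt
  · have h1 : x ^ n < y ^ n := (hn.strictMono_pow) hlt
    by_contra hneg
    push Not at hneg
    have : 0 ≤ U x y n * (x - y) := mul_nonneg_of_nonpos_of_nonpos hneg (by linarith)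
    linarith
  · have h1 : y ^ n < x ^ n := (hn.strictMono_pow) hgt
    by_contra hneg
    push Not at hneg
    have : U x y n * (x - y) ≤ 0 := mul_nonpos_of_nonpos_of_nonneg hneg (by linarith)
    linarith

end Pool.Agent.Hhelper83.Terjanian
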