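import Pool.Agent.Hhelper83.SSol

/-!
Jacobi symbols of `U n = (x^n - y^n)/(x - y)` in the remaining parity cases:
`x ≡ -y mod 4` odd, `4 ∣ x y`, and `x y ≡ 2 mod 4`.
-/

namespace Pool.Agent.Hhelper83.Terjanian

open Finset NumberTheorySymbols

section general

variable {x y : ℤ}

theorem jadd (hne : x ≠ y) {n : ℕ} (hn : Odd n)
    (hQ : J(x * y | (U x y n).natAbs) = 1) (k : ℕ) :
    J(U x y (k + 2 * n) | (U x y n).natAbs) = J(U x y k | (U x y n).natAbs) := by
  have hpos := U_pos hne hn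
  have e : (((U x y n).natAbs : ℕ) : ℤ) = U x y n := by
    rw [Int.natAbs_of_nonneg hpos.le]
  have h1 : U x y (k + 2 * n) % (((U x y n).natAbs : ℕ) : ℤ)
      = ((x * y) ^ n * U x y k) % (((U x y n).natAbs : ℕ) : ℤ) := by
    rw [e, U_add hne n k]
    simp
  rw [jacobiSym.mod_left' h1, jacobiSym.mul_left, jacobiSym.pow_left, hQ]
  simp

theorem jsub (hne : x ≠ y) {n : ℕ} (hn : Odd n)
    (hQ : J(x * y | (U x y n).natAbs) = 1) (k : ℕ) (hk : k ≤ 2 * n) :
    J(U x y (2 * n - k) | (U x y n).natAbs) = J(-U x y k | (U x y n).natAbs) := by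
  have hpos := U_pos hne hn
  have e : (((U x y n).natAbs : ℕ) : ℤ) = U x y n := by
    rw [Int.natAbs_of_nonneg hpos.le]
  have h1 : ((x * y) ^ k * U x y (2 * n - k)) % (((U x y n).natAbs : ℕ) : ℤ)
      = ((x * y) ^ n * (- U x y k)) % (((U x y n).natAbs : ℕ) : ℤ) := by
    rw [e, U_sub hne n k hk]
    have : U x y n * (x ^ n * y ^ k + x ^ k * y ^ n) - (x * y) ^ n * U x y k
      = (x * y) ^ n * (- U x y k) + U x y n * (x ^ n * y ^ k + x ^ k * y ^ n) := by ring
    rw [this]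
    simp
  have h2 := jacobiSym.mod_left' h1
  rw [jacobiSym.mul_left ((x * y) ^ k), jacobiSym.pow_left, jacobiSym.mul_left ((x * y) ^ n),
    jacobiSym.pow_left, hQ] at h2
  simpa using h2

/-- If `U n ≡ 1 mod 4` and `J(xy | U n) = 1` for all odd `n`, then all symbols are `1`. -/
theorem one_aux (hne : x ≠ y)
    (hQ : ∀ n, Odd n → J(x * y | (U x y n).natAbs) = 1)
    (h4 : ∀ n, Odd n → (U x y n).natAbs % 4 = 1) :
    ∀ s m n : ℕ, m + n = s → n < m → Odd m → Odd n → Nat.Coprime m n →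
      J(U x y m | (U x y n).natAbs) = 1 := by
  have flip : ∀ m n : ℕ, Odd m → Odd n → J(U x y m | (U x y n).natAbs) = 1 →
      J(U x y n | (U x y m).natAbs) = 1 := by
    intro m n hm hn h
    have hposm := U_pos hne hm
    have hposn := U_pos hne hn
    have h4m := h4 m hm
    have h4n := h4 n hn
    have em : ((U x y m).natAbs : ℤ) = U x y m := Int.natAbs_of_nonneg hposm.le
    have en : ((U x y n).natAbs : ℤ) = U x y n := Int.natAbs_of_nonneg hposn.le
    have := jacobiSym.quadratic_reciprocity_one_mod_four (a := (U x y n).natAbs)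
      (b := (U x y m).natAbs) h4n (by rw [Nat.odd_iff]; omega)
    rw [em, en] at this
    rw [this]; exact h
  intro s
  induction s using Nat.strong_induction_on with
  | _ s ih =>
    intro m n hs hlt hm hn hcop
    have gen : ∀ k : ℕ, Odd k → k + n < s → Nat.Coprime k n →
        J(U x y k | (U x y n).natAbs) = 1 := by
      intro k hk hks hkn
      rcases lt_trichotomy k n with h | h | h
      · exact flip n k hn hk (ih (n + k) (by omega) n k rfl h hn hk hkn.symm)
      · subst h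
        have : k = 1 := by simpa using hkn
        subst this
        simp [U_one]
      · exact ih (k + n) hks k n rfl h hk hn hkn
    have hnpos : 0 < n := hn.pos
    rcases lt_or_ge m (2 * n) with h | h
    · obtain ⟨k, hk⟩ : ∃ k, m + k = 2 * n := ⟨2 * n - m, by omega⟩
      have hm' : m = 2 * n - k := by omega
      have hko : Odd k := by
        rw [Nat.odd_iff] at hm hn ⊢; omega
      have hkn : Nat.Coprime k n := by
        have h1 : Nat.gcd k n ∣ Nat.gcd m n := by
          apply Nat.dvd_gcd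
          · have hd : Nat.gcd k n ∣ m + k := by rw [hk]; exact (Nat.gcd_dvd_right k n).mul_left 2
            exact (Nat.dvd_add_left (Nat.gcd_dvd_left k n)).mp hd
          · exact Nat.gcd_dvd_right k n
        unfold Nat.Coprime at hcop ⊢
        rw [hcop] at h1
        exact Nat.dvd_one.mp h1
      have g := gen k hko (by omega) hkn
      have hodd : Odd (U x y n).natAbs := by
        have := h4 n hn
        rw [Nat.odd_iff]; omega
      rw [hm', jsub hne hn (hQ n hn) k (by omega), jacobiSym.neg _ hodd, g,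
        ZMod.χ₄_nat_one_mod_four (h4 n hn)]
      norm_num
    · obtain ⟨k, hk⟩ : ∃ k, m = k + 2 * n := ⟨m - 2 * n, by omega⟩
      have hko : Odd k := by
        rw [Nat.odd_iff] at hm hn ⊢; omega
      have hkn : Nat.Coprime k n := by
        rw [hk] at hcop
        simpa using hcop
      have g := gen k hko (by omega) hkn
      rw [hk, jadd hne hn (hQ n hn) k]
      exact g

theorem one_all (hne : x ≠ y)
    (hQ : ∀ n, Odd n → J(x * y | (U x y n).natAbs) = 1)
    (h4 : ∀ n, Odd n → (U x y n).natAbs % 4 = 1)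
    {m n : ℕ} (hm : Odd m) (hn : Odd n) (hcop : Nat.Coprime m n) :
      J(U x y m | (U x y n).natAbs) = 1 := by
  rcases lt_trichotomy m n with h | h | h
  · have h1 := one_aux hne hQ h4 (n + m) n m rfl h hn hm hcop.symm
    have hposm := U_pos hne hm
    have hposn := U_pos hne hn
    have h4m := h4 m hm
    have h4n := h4 n hn
    have em : ((U x y m).natAbs : ℤ) = U x y m := Int.natAbs_of_nonneg hposm.le
    have en : ((U x y n).natAbs : ℤ) = U x y n := Int.natAbs_of_nonneg hposn.le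
    have := jacobiSym.quadratic_reciprocity_one_mod_four (a := (U x y m).natAbs)
      (b := (U x y n).natAbs) h4m (by rw [Nat.odd_iff]; omega)
    rw [em, en] at this
    rw [this]; exact h1
  · subst h
    have : m = 1 := by simpa using hcop
    subst this
    simp [U_one]
  · exact one_aux hne hQ h4 (m + n) m n rfl h hm hn hcop

/-- the symbol `J(U n | ℓ)` when `ℓ ∣ x - y`. -/
theorem jacobi_U_mod_l (hc : IsCoprime x y) {l : ℕ} (hl : l.Prime)
    (hd : (l : ℤ) ∣ x - y) {n : ℕ} (hn : Odd n) :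
    J(U x y n | l) = J((n : ℤ) | l) := by
  have h1 := U_modEq_sub x y n l hd
  have h2 : U x y n % (l : ℤ) = ((n : ℤ) * y ^ (n - 1)) % (l : ℤ) :=
    (Int.modEq_iff_dvd.mpr h1).symm
  rw [jacobiSym.mod_left' h2, jacobiSym.mul_left]
  obtain ⟨k, hk⟩ := hn
  have : n - 1 = k * 2 := by omega
  rw [this, pow_mul, jacobiSym.sq_one', mul_one]
  have hy : ¬ (l : ℤ) ∣ y := by
    intro hy
    have hx : (l : ℤ) ∣ x := by
      have := dvd_add hd hy
      simpa using this
    exact (Nat.prime_iff_prime_int.mp hl).not_isUnit (hc.isUnit_of_dvd' hx hy)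
  have h3 : IsCoprime (l : ℤ) (y ^ k) :=
    ((Nat.prime_iff_prime_int.mp hl).coprime_iff_not_dvd.mpr hy).pow_right
  exact Int.isCoprime_iff_gcd_eq_one.mp h3.symm

/-- symbol of a square times `ℓ`. -/
theorem jacobi_l_sq {l : ℕ} (g : ℤ) {N : ℕ} (h : J((l : ℤ) * g ^ 2 | N) ≠ 0) :
    J((l : ℤ) * g ^ 2 | N) = J((l : ℤ) | N) := by
  rw [jacobiSym.mul_left, jacobiSym.pow_left] at h ⊢
  have h1 : J(g | N) ≠ 0 := by
    intro h0
    apply h
    rw [h0]; ring
  have h2 : J(g | N) ^ 2 = 1 := by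
    rcases jacobiSym.trichotomy g N with h3 | h3 | h3
    · exact absurd h3 h1
    · rw [h3]; norm_num
    · rw [h3]; norm_num
  rw [h2, mul_one]

/-- existence of an odd `n ≡ 1 mod 4` coprime to `ℓ` with `J(n | ℓ) = -1` -/
theorem exists_nonres {p : ℕ} (hp : p.Prime) (hp2 : p ≠ 2) :
    ∃ n : ℕ, n % 4 = 1 ∧ Nat.Coprime p n ∧ J((n : ℤ) | p) = -1 := by
  have : Fact p.Prime := ⟨hp⟩
  have hpo : Odd p := hp.odd_of_ne_two hp2
  have hchar : ringChar (ZMod p) ≠ 2 := by
    rw [ZMod.ringChar_zmod_n]; exact hp2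
  obtain ⟨a, ha⟩ := FiniteField.exists_nonsquare hchar
  have hcop4 : Nat.Coprime p 4 := by
    have : Nat.Coprime p (2 ^ 2) := Nat.Coprime.pow_right 2 (Nat.coprime_two_right.mpr hpo)
    simpa using this
  obtain ⟨n, hn1, hn2⟩ := Nat.chineseRemainder hcop4 a.val 1
  have hna : ((n : ℤ) : ZMod p) = a := by
    have : ((n : ℕ) : ZMod p) = ((a.val : ℕ) : ZMod p) := (ZMod.natCast_eq_natCast_iff _ _ _).mpr hn1
    push_cast
    rw [this]; simp
  have ha0 : a ≠ 0 := by
    rintro rfl; exact ha ⟨0, by simp⟩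
  refine ⟨n, hn2, ?_, ?_⟩
  · rw [Nat.Prime.coprime_iff_not_dvd hp]
    intro hd
    apply ha0
    rw [← hna]
    push_cast
    exact (ZMod.natCast_eq_zero_iff n p).mpr hd
  · rw [← jacobiSym.legendreSym.to_jacobiSym, legendreSym.eq_neg_one_iff, hna]
    exact ha

/-- In the situation of `one_all`, `U ℓ = ℓ g^2` with `ℓ ∣ x - y` is impossible. -/
theorem no_l_sq_of_one (hc : IsCoprime x y) (hne : x ≠ y)
    (hQ : ∀ n, Odd n → J(x * y | (U x y n).natAbs) = 1)
    (h4 : ∀ n, Odd n → (U x y n).natAbs % 4 = 1)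
    {l : ℕ} (hl : l.Prime) (hl2 : l ≠ 2) (hd : (l : ℤ) ∣ x - y) (g : ℤ)
    (hg : U x y l = l * g ^ 2) : False := by
  obtain ⟨n, hn4, hcop, hn⟩ := exists_nonres hl hl2
  have hlo : Odd l := hl.odd_of_ne_two hl2
  have hno : Odd n := by rw [Nat.odd_iff]; omega
  have h1 := one_all hne hQ h4 hlo hno hcop
  rw [hg] at h1
  rw [jacobi_l_sq g (by rw [h1]; norm_num)] at h1
  have h5 : J((l : ℤ) | (U x y n).natAbs) = J(((U x y n).natAbs : ℤ) | l) :=
    jacobiSym.quadratic_reciprocity_one_mod_four' hlo (h4 n hno)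
  rw [h5, Int.natAbs_of_nonneg (U_pos hne hno).le, jacobi_U_mod_l hc hl hd hno, hn] at h1
  norm_num at h1

end general

section caseII

variable {x y : ℤ}

/-- both odd with `x + y ≡ 0 mod 4`: then `U n ≡ 1 mod 4` for odd `n`. -/
theorem U_mod_four_II (hy : Odd y) (hxy : (4 : ℤ) ∣ x + y) {n : ℕ} (hn : Odd n) :
    U x y n ≡ 1 [ZMOD 4] := by
  -- replace x by -y
  have hx : x ≡ -y [ZMOD 4] := by
    apply Int.ModEq.symm
    rw [Int.modEq_iff_dvd]
    have e : x - -y = x + y := by ring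
    rw [e]; exact hxy
  have h1 : U x y n ≡ U (-y) y n [ZMOD 4] := by
    unfold U
    refine Int.ModEq.sum ?_
    intro i _
    exact (hx.pow i).mul_right _
  have h2 : U (-y) y n * (-y - y) = (-y) ^ n - y ^ n := U_mul (-y) y n
  have h3 : U (-y) y n = y ^ (n - 1) := by
    rw [hn.neg_pow] at h2
    have hy0 : y ≠ 0 := by rintro rfl; simp at hy
    have : -y - y ≠ 0 := by
      intro h; apply hy0; linarith
    apply mul_right_cancel₀ this
    rw [h2]
    obtain ⟨k, hk⟩ := hn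
    have : n = (n - 1) + 1 := by omega
    calc -y ^ n - y ^ n = -y ^ ((n - 1) + 1) - y ^ ((n - 1) + 1) := by rw [← this]
      _ = y ^ (n - 1) * (-y - y) := by ring
  rw [h3] at h1
  refine h1.trans ?_
  obtain ⟨k, hk⟩ := hn
  have : n - 1 = 2 * k := by omega
  rw [this, pow_mul]
  have : y ^ 2 ≡ 1 [ZMOD 4] := by
    obtain ⟨m, rfl⟩ := hy
    apply Int.ModEq.symm
    rw [Int.modEq_iff_dvd]
    exact ⟨m ^ 2 + m, by ring⟩
  simpa using this.pow k

/-- `J(D | N) = J(N | |D|)` for `N ≡ 1 mod 4`, `D` odd. -/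
theorem jacobi_signed' {D : ℤ} (hD : Odd D) {N : ℕ} (hN : N % 4 = 1) :
    J(D | N) = J((N : ℤ) | D.natAbs) := by
  have hNo : Odd N := by rw [Nat.odd_iff]; omega
  rcases le_or_gt 0 D with h | h
  · obtain ⟨d, rfl⟩ := Int.eq_ofNat_of_zero_le h
    have hd : Odd d := by exact_mod_cast hD
    simpa using jacobiSym.quadratic_reciprocity_one_mod_four' hd hN
  · obtain ⟨d, hd⟩ : ∃ d : ℕ, D = -(d : ℤ) := ⟨D.natAbs, by omega⟩
    subst hd
    have hdo : Odd d := by
      have := hD.neg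
      rw [neg_neg] at this
      exact_mod_cast this
    rw [jacobiSym.neg _ hNo, ZMod.χ₄_nat_one_mod_four hN, one_mul]
    have e : (-(d : ℤ)).natAbs = d := by simp
    rw [e]
    exact jacobiSym.quadratic_reciprocity_one_mod_four' hdo hN

/-- `J(U n | |x'|) = 1` for every odd-or-not divisor `x'` of `x`, `n` odd. -/
theorem jacobi_U_dvd_left (hc : IsCoprime x y) {n : ℕ} (hn : Odd n) {d : ℤ} (hd : d ∣ x) :
    J(U x y n | d.natAbs) = 1 := by
  have h := (U_modEq_left x y n hn.pos)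
  have h2 : U x y n % (d.natAbs : ℤ) = (y ^ (n - 1)) % (d.natAbs : ℤ) := by
    have := Int.modEq_iff_dvd.mp h
    have h3 : ((d.natAbs : ℕ) : ℤ) ∣ y ^ (n - 1) - U x y n := by
      rw [Int.natAbs_dvd]; exact hd.trans this
    exact (Int.modEq_iff_dvd.mpr h3)
  rw [jacobiSym.mod_left' h2]
  obtain ⟨k, hk⟩ := hn
  have : n - 1 = k * 2 := by omega
  rw [this, pow_mul]
  apply jacobiSym.sq_one'
  have h4 : IsCoprime (y ^ k) d := ((IsCoprime.of_isCoprime_of_dvd_left hc hd).symm.pow_left)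
  rw [Int.isCoprime_iff_gcd_eq_one] at h4
  simpa [Int.gcd, Int.natAbs_abs] using h4

theorem hQ_II (hc : IsCoprime x y) (hne : x ≠ y) (hy : Odd y) (hxy : (4 : ℤ) ∣ x + y) :
    ∀ n, Odd n → J(x * y | (U x y n).natAbs) = 1 := by
  intro n hn
  have hx : Odd x := by
    rw [Int.odd_iff] at hy ⊢; omega
  have hpos := U_pos hne hn
  have h4 : (U x y n).natAbs % 4 = 1 := by
    have : U x y n % 4 = 1 := U_mod_four_II hy hxy hn
    have e : ((U x y n).natAbs : ℤ) = U x y n := Int.natAbs_of_nonneg hpos.le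
    omega
  rw [jacobi_signed' (hx.mul hy) h4]
  have e : (((U x y n).natAbs : ℕ) : ℤ) = U x y n := by
    rw [Int.natAbs_of_nonneg hpos.le]
  rw [e, Int.natAbs_mul]
  have hx0 : x.natAbs ≠ 0 := by
    rw [Int.natAbs_ne_zero]; rintro rfl; simp at hx
  have hy0 : y.natAbs ≠ 0 := by
    rw [Int.natAbs_ne_zero]; rintro rfl; simp at hy
  rw [jacobiSym.mul_right' _ hx0 hy0, jacobi_U_left hc hn]
  rw [U_comm, jacobi_U_left hc.symm hn]
  norm_num

theorem h4_II (hne : x ≠ y) (hy : Odd y) (hxy : (4 : ℤ) ∣ x + y) :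
    ∀ n, Odd n → (U x y n).natAbs % 4 = 1 := by
  intro n hn
  have hpos := U_pos hne hn
  have : U x y n % 4 = 1 := U_mod_four_II hy hxy hn
  have e : ((U x y n).natAbs : ℤ) = U x y n := Int.natAbs_of_nonneg hpos.le
  omega

end caseII

section evenx

variable {x y : ℤ}

/-- for `x` even, `y` odd and `n ≥ 3` odd: `U n ≡ 1 + x y + x^2 mod 8`. -/
theorem U_mod_eight (hx : Even x) (hy : Odd y) {n : ℕ} (hn : Odd n) (hn3 : 3 ≤ n) :
    U x y n ≡ 1 + x * y + x ^ 2 [ZMOD 8] := by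
  obtain ⟨m, hm⟩ : ∃ m, n = m + 3 := ⟨n - 3, by omega⟩
  have hme : Even m := by
    rw [hm] at hn
    rw [Nat.even_iff]; rw [Nat.odd_iff] at hn; omega
  have hU : U x y n ≡ y ^ (m + 2) + x * y ^ (m + 1) + x ^ 2 * y ^ m [ZMOD 8] := by
    unfold U
    rw [hm, Finset.sum_range_succ', Finset.sum_range_succ', Finset.sum_range_succ']
    have h0 : ∑ i ∈ Finset.range m, x ^ (i + 1 + 1 + 1) * y ^ (m + 3 - 1 - (i + 1 + 1 + 1)) ≡ 0
        [ZMOD 8] := by
      rw [Int.modEq_zero_iff_dvd]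
      apply Finset.dvd_sum
      intro i _
      apply Dvd.dvd.mul_right
      have : x ^ (i + 1 + 1 + 1) = x ^ 3 * x ^ i := by ring
      rw [this]
      apply Dvd.dvd.mul_right
      obtain ⟨w, hw⟩ := hx
      exact ⟨w ^ 3, by rw [hw]; ring⟩
    have e1 : m + 3 - 1 - (0 + 1 + 1) = m := by omega
    have e2 : m + 3 - 1 - (0 + 1) = m + 1 := by omega
    have e3 : m + 3 - 1 - 0 = m + 2 := by omega
    rw [e1, e2, e3]
    have := ((h0.add_right (x ^ (0 + 1 + 1) * y ^ m)).add_right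
      (x ^ (0 + 1) * y ^ (m + 1))).add_right (x ^ 0 * y ^ (m + 2))
    refine this.trans ?_
    have e : (0 : ℤ) + x ^ (0 + 1 + 1) * y ^ m + x ^ (0 + 1) * y ^ (m + 1) + x ^ 0 * y ^ (m + 2)
      = y ^ (m + 2) + x * y ^ (m + 1) + x ^ 2 * y ^ m := by ring
    rw [e]
  have hy2 : y ^ 2 ≡ 1 [ZMOD 8] := by
    have h8 := Int.sq_mod_four_eq_one_of_odd hy
    obtain ⟨k, hk⟩ := hy
    apply Int.ModEq.symm
    rw [Int.modEq_iff_dvd]
    obtain ⟨t, ht⟩ := Int.even_mul_succ_self k
    refine ⟨t, ?_⟩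
    rw [hk]
    have : (2 * k + 1) ^ 2 - 1 = 4 * (k * (k + 1)) := by ring
    rw [this, ht]; ring
  obtain ⟨j, hj⟩ := hme
  have hym : y ^ m ≡ 1 [ZMOD 8] := by
    have : m = 2 * j := by omega
    rw [this, pow_mul]
    simpa using hy2.pow j
  have a1 : y ^ (m + 2) ≡ 1 [ZMOD 8] := by
    rw [pow_add]
    simpa using hym.mul hy2
  have a2 : x * y ^ (m + 1) ≡ x * y [ZMOD 8] := by
    rw [pow_succ]
    have := (hym.mul_right y).mul_left x
    simpa using this
  have a3 : x ^ 2 * y ^ m ≡ x ^ 2 [ZMOD 8] := by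
    have := hym.mul_left (x ^ 2)
    simpa using this
  exact hU.trans ((a1.add a2).add a3)

end evenx

section caseIII

variable {x y : ℤ}

theorem h4_III (hne : x ≠ y) (hy : Odd y) (hx : (4 : ℤ) ∣ x) :
    ∀ n, Odd n → (U x y n).natAbs % 4 = 1 := by
  intro n hn
  have hpos := U_pos hne hn
  have e : ((U x y n).natAbs : ℤ) = U x y n := Int.natAbs_of_nonneg hpos.le
  have hxe : Even x := by
    obtain ⟨w, hw⟩ := hx
    exact ⟨2 * w, by rw [hw]; ring⟩
  rcases Nat.lt_or_ge n 3 with h3 | h3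
  · have : n = 1 := by
      rw [Nat.odd_iff] at hn; omega
    subst this
    simp [U_one]
  · have h := U_mod_eight hxe hy hn h3
    have h' : U x y n ≡ 1 + x * y + x ^ 2 [ZMOD 4] := h.of_mul_right 2
    obtain ⟨w, hw⟩ := hx
    have h2 : (1 + x * y + x ^ 2) % 4 = 1 := by
      have : 1 + x * y + x ^ 2 = 1 + 4 * (w * y + 4 * w ^ 2) := by rw [hw]; ring
      omega
    have h3 : U x y n % 4 = (1 + x * y + x ^ 2) % 4 := h'
    omega

theorem hQ_III (hc : IsCoprime x y) (hne : x ≠ y) (hy : Odd y) (hx : (4 : ℤ) ∣ x) (hx0 : x ≠ 0) :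
    ∀ n, Odd n → J(x * y | (U x y n).natAbs) = 1 := by
  intro n hn
  rcases Nat.lt_or_ge n 3 with h3 | h3
  · have : n = 1 := by
      rw [Nat.odd_iff] at hn; omega
    subst this
    simp [U_one]
  have hpos := U_pos hne hn
  have e : ((U x y n).natAbs : ℤ) = U x y n := Int.natAbs_of_nonneg hpos.le
  have h4 := h4_III hne hy hx n hn
  have hodd : Odd (U x y n).natAbs := by rw [Nat.odd_iff]; omega
  have hxe : Even x := by
    obtain ⟨w, hw⟩ := hx
    exact ⟨2 * w, by rw [hw]; ring⟩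
  -- write x = 2^k * x'
  obtain ⟨k, x', hx', hxx⟩ : ∃ k : ℕ, ∃ x' : ℤ, Odd x' ∧ x = 2 ^ k * x' := by
    obtain ⟨k, m, hm, hk⟩ := Nat.exists_eq_two_pow_mul_odd (Int.natAbs_ne_zero.mpr hx0)
    have hmo : Odd (m : ℤ) := by exact_mod_cast hm
    have hk' : ((x.natAbs : ℕ) : ℤ) = 2 ^ k * (m : ℤ) := by rw [hk]; push_cast; ring
    rcases Int.natAbs_eq x with h | h
    · exact ⟨k, m, hmo, by rw [h, hk']⟩
    · exact ⟨k, -m, hmo.neg, by rw [h, hk']; ring⟩
  have hy0 : y.natAbs ≠ 0 := by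
    rw [Int.natAbs_ne_zero]; rintro rfl; simp at hy
  have hx'0 : x'.natAbs ≠ 0 := by
    rw [Int.natAbs_ne_zero]; rintro rfl; simp at hx'
  have hodd' : J(x' * y | (U x y n).natAbs) = 1 := by
    rw [jacobi_signed' (hx'.mul hy) h4, e, Int.natAbs_mul,
      jacobiSym.mul_right' _ hx'0 hy0,
      jacobi_U_dvd_left hc hn (by rw [hxx]; exact Dvd.intro_left _ rfl)]
    rw [U_comm, jacobi_U_left hc.symm hn]
    norm_num
  have hk2 : 2 ≤ k := by
    by_contra hk
    have hk' : k = 0 ∨ k = 1 := by omega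
    rcases hk' with rfl | rfl
    · rw [pow_zero, one_mul] at hxx
      rw [hxx] at hxe
      exact (Int.not_even_iff_odd.mpr hx') hxe
    · obtain ⟨w, hw⟩ := hx
      rw [Int.odd_iff] at hx'
      rw [pow_one] at hxx
      omega
  have h2k : J(((2 : ℤ) ^ k) | (U x y n).natAbs) = 1 := by
    rcases Nat.eq_or_lt_of_le hk2 with hk | hk
    · rw [← hk]
      have : (2 : ℤ) ^ 2 = 4 := by norm_num
      rw [this]
      exact jacobiSym.at_four hodd
    · -- 8 ∣ x
      have h8x : (8 : ℤ) ∣ x := by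
        rw [hxx]
        apply Dvd.dvd.mul_right
        have : (2 : ℤ) ^ 3 ∣ 2 ^ k := pow_dvd_pow 2 hk
        simpa using this
      have h8 : (U x y n).natAbs % 8 = 1 := by
        have h := U_mod_eight hxe hy hn h3
        have h' : U x y n % 8 = (1 + x * y + x ^ 2) % 8 := h
        obtain ⟨w, hw⟩ := h8x
        have : 1 + x * y + x ^ 2 = 1 + 8 * (w * y + 8 * w ^ 2) := by rw [hw]; ring
        omega
      rw [jacobiSym.pow_left, jacobiSym.at_two hodd, ZMod.χ₈_nat_mod_eight, h8]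
      simp
  have : x * y = 2 ^ k * (x' * y) := by rw [hxx]; ring
  rw [this, jacobiSym.mul_left, h2k, hodd']
  norm_num

end caseIII

end Pool.Agent.Hhelper83.Terjanian
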