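import Pool.Agent.Hhelper83.Terjanian

namespace Pool.Agent.Hhelper83.Terjanian

open Finset NumberTheorySymbols

/-- modulo `4`: if `x ≡ y`, both odd, `n` odd then `U x y n ≡ n`. -/
theorem U_mod_four {x y : ℤ} (hx : Odd y) (hxy : (4 : ℤ) ∣ x - y) {n : ℕ} (hn : Odd n) :
    U x y n ≡ n [ZMOD 4] := by
  have h := U_modEq_sub x y n 4 hxy
  have h1 : U x y n ≡ n * y ^ (n - 1) [ZMOD 4] := (Int.modEq_iff_dvd.mpr h).symm
  have h2 : y ^ (n - 1) ≡ 1 [ZMOD 4] := by
    obtain ⟨k, hk⟩ := hn
    have : n - 1 = 2 * k := by omega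
    rw [this, pow_mul]
    have : y ^ 2 ≡ 1 [ZMOD 4] := by
      obtain ⟨m, rfl⟩ := hx
      apply Int.ModEq.symm
      rw [Int.modEq_iff_dvd]
      exact ⟨m ^ 2 + m, by ring⟩
    simpa using this.pow k
  calc U x y n ≡ n * y ^ (n - 1) [ZMOD 4] := h1
    _ ≡ n * 1 [ZMOD 4] := h2.mul_left _
    _ = n := by ring

theorem odd_U {x y : ℤ} (hx : Odd y) (hxy : (4 : ℤ) ∣ x - y) {n : ℕ} (hn : Odd n) :
    Odd (U x y n) := by
  have h := U_mod_four hx hxy hn
  have h2 : U x y n % 4 = n % 4 := h
  obtain ⟨k, hk⟩ := hn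
  rw [Int.odd_iff]
  omega

/-- reciprocity for a signed denominator congruent to 1 mod 4 -/
theorem jacobi_signed {D : ℤ} (hD : D % 4 = 1) {N : ℕ} (hN : Odd N) :
    J(D | N) = J((N : ℤ) | D.natAbs) := by
  rcases le_or_gt 0 D with h | h
  · obtain ⟨d, rfl⟩ := Int.eq_ofNat_of_zero_le h
    have : d % 4 = 1 := by omega
    simpa using jacobiSym.quadratic_reciprocity_one_mod_four this hN
  · obtain ⟨d, hd⟩ : ∃ d : ℕ, D = -(d : ℤ) := ⟨D.natAbs, by omega⟩
    subst hd
    have hd4 : d % 4 = 3 := by omega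
    have hdo : Odd d := by rw [Nat.odd_iff]; omega
    rw [jacobiSym.neg _ hN]
    have e : (-(d : ℤ)).natAbs = d := by simp
    rw [e]
    rcases Nat.odd_mod_four_iff.mp (Nat.odd_iff.mp hN) with h1 | h3
    · rw [ZMod.χ₄_nat_one_mod_four h1, one_mul]
      exact jacobiSym.quadratic_reciprocity_one_mod_four' hdo h1
    · rw [ZMod.χ₄_nat_three_mod_four h3, jacobiSym.quadratic_reciprocity_three_mod_four hd4 h3]
      ring

theorem isCoprime_U_left {x y : ℤ} (hc : IsCoprime x y) {n : ℕ} (hn : 0 < n) :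
    IsCoprime x (U x y n) := by
  have h := (U_modEq_left x y n hn)
  have h2 : x ∣ U x y n - y ^ (n - 1) := by
    have := Int.modEq_iff_dvd.mp h.symm
    exact this
  obtain ⟨t, ht⟩ := h2
  have : U x y n = y ^ (n - 1) + x * t := by linarith
  rw [this]
  exact (IsCoprime.pow_right hc).add_mul_left_right t

theorem isCoprime_mul_U {x y : ℤ} (hc : IsCoprime x y) {n : ℕ} (hn : 0 < n) :
    IsCoprime (x * y) (U x y n) := by
  refine IsCoprime.mul_left (isCoprime_U_left hc hn) ?_
  rw [U_comm]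
  exact isCoprime_U_left hc.symm hn

theorem jacobi_U_left {x y : ℤ} (hc : IsCoprime x y) {n : ℕ} (hn : Odd n) :
    J(U x y n | x.natAbs) = 1 := by
  have h := (U_modEq_left x y n hn.pos)
  have h2 : U x y n % (x.natAbs : ℤ) = (y ^ (n - 1)) % (x.natAbs : ℤ) := by
    have := Int.modEq_iff_dvd.mp h
    have h3 : ((x.natAbs : ℕ) : ℤ) ∣ y ^ (n - 1) - U x y n := by
      rw [Int.natAbs_dvd]; exact this
    exact (Int.modEq_iff_dvd.mpr h3)
  rw [jacobiSym.mod_left' h2]
  obtain ⟨k, hk⟩ := hn
  have : n - 1 = k * 2 := by omega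
  rw [this, pow_mul]
  apply jacobiSym.sq_one'
  have h4 : IsCoprime (y ^ k) x := (hc.symm.pow_left)
  rw [Int.isCoprime_iff_gcd_eq_one] at h4
  simpa [Int.gcd, Int.natAbs_abs] using h4

/-- `xy` is a quadratic residue (Jacobi) modulo `U n`. -/
theorem jacobi_Q {x y : ℤ} (hc : IsCoprime x y) (hx : Odd y) (hxy : (4 : ℤ) ∣ x - y)
    (hne : x ≠ y) {n : ℕ} (hn : Odd n) :
    J(x * y | (U x y n).natAbs) = 1 := by
  have hxo : Odd x := by
    rw [Int.odd_iff] at hx ⊢; omega
  have hpos := U_pos hne hn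
  have hodd : Odd (U x y n).natAbs := by
    rw [Int.natAbs_odd]; exact odd_U hx hxy hn
  have hD : (x * y) % 4 = 1 := by
    obtain ⟨t, ht⟩ := hxy
    obtain ⟨m, hm⟩ := hx
    have : x * y = 4 * (m ^ 2 + m + t * y) + 1 := by
      have : x = y + 4 * t := by linarith
      rw [this, hm]; ring
    omega
  rw [jacobi_signed hD hodd]
  have e : (((U x y n).natAbs : ℕ) : ℤ) = U x y n := by
    rw [Int.natAbs_of_nonneg hpos.le]
  rw [e, Int.natAbs_mul]
  have hx0 : x.natAbs ≠ 0 := by
    rw [Int.natAbs_ne_zero]; rintro rfl; simp at hxo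
  have hy0 : y.natAbs ≠ 0 := by
    rw [Int.natAbs_ne_zero]; rintro rfl; simp at hx
  rw [jacobiSym.mul_right' _ hx0 hy0, jacobi_U_left hc hn]
  rw [U_comm, jacobi_U_left hc.symm hn]
  norm_num

/-- coprimality transfers: gcd(U m, U n) = 1 for coprime m, n is not needed separately; we only
use the Jacobi symbol identity. -/
theorem jacobi_add {x y : ℤ} (hc : IsCoprime x y) (hx : Odd y) (hxy : (4 : ℤ) ∣ x - y)
    (hne : x ≠ y) {n : ℕ} (hn : Odd n) (k : ℕ) :
    J(U x y (k + 2 * n) | (U x y n).natAbs) = J(U x y k | (U x y n).natAbs) := by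
  have hpos := U_pos hne hn
  have e : (((U x y n).natAbs : ℕ) : ℤ) = U x y n := by
    rw [Int.natAbs_of_nonneg hpos.le]
  have h1 : U x y (k + 2 * n) % (((U x y n).natAbs : ℕ) : ℤ)
      = ((x * y) ^ n * U x y k) % (((U x y n).natAbs : ℕ) : ℤ) := by
    rw [e, U_add hne n k]
    simp
  rw [jacobiSym.mod_left' h1, jacobiSym.mul_left, jacobiSym.pow_left,
    jacobi_Q hc hx hxy hne hn]
  simp

theorem jacobi_sub {x y : ℤ} (hc : IsCoprime x y) (hx : Odd y) (hxy : (4 : ℤ) ∣ x - y)
    (hne : x ≠ y) {n : ℕ} (hn : Odd n) (k : ℕ) (hk : k ≤ 2 * n) :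
    J(U x y (2 * n - k) | (U x y n).natAbs) = J(-U x y k | (U x y n).natAbs) := by
  have hpos := U_pos hne hn
  have e : (((U x y n).natAbs : ℕ) : ℤ) = U x y n := by
    rw [Int.natAbs_of_nonneg hpos.le]
  have h1 : ((x * y) ^ k * U x y (2 * n - k)) % (((U x y n).natAbs : ℕ) : ℤ)
      = ((x * y) ^ n * (- U x y k)) % (((U x y n).natAbs : ℕ) : ℤ) := by
    rw [e, U_sub hne n k hk]
    have : U x y n * (x ^ n * y ^ k + x ^ k * y ^ n) - (x * y) ^ n * U x y k
      = (x * y) ^ n * (- U x y k) + U x y n * (x ^ n * y ^ k + x ^ k * y ^ n) := by ring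
    rw [this]
    simp
  have h2 := jacobiSym.mod_left' h1
  rw [jacobiSym.mul_left ((x * y) ^ k), jacobiSym.pow_left, jacobiSym.mul_left ((x * y) ^ n),
    jacobiSym.pow_left, jacobi_Q hc hx hxy hne hn] at h2
  simpa using h2

/-- flipping -/
theorem jacobi_flip {x y : ℤ} (hx : Odd y) (hxy : (4 : ℤ) ∣ x - y)
    (hne : x ≠ y) {m n : ℕ} (hm : Odd m) (hn : Odd n)
    (h : J(U x y m | (U x y n).natAbs) = J((m : ℤ) | n)) :
    J(U x y n | (U x y m).natAbs) = J((n : ℤ) | m) := by
  have hposm := U_pos hne hm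
  have hposn := U_pos hne hn
  obtain ⟨M, hM⟩ := Int.eq_ofNat_of_zero_le hposm.le
  obtain ⟨N, hN⟩ := Int.eq_ofNat_of_zero_le hposn.le
  have hMo : Odd M := by
    have := odd_U hx hxy hm; rw [hM] at this; exact_mod_cast this
  have hNo : Odd N := by
    have := odd_U hx hxy hn; rw [hN] at this; exact_mod_cast this
  have hM4 : M % 4 = m % 4 := by
    have := U_mod_four hx hxy hm; rw [hM] at this
    have h' : (M : ℤ) % 4 = (m : ℤ) % 4 := this
    omega
  have hN4 : N % 4 = n % 4 := by
    have := U_mod_four hx hxy hn; rw [hN] at this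
    have h' : (N : ℤ) % 4 = (n : ℤ) % 4 := this
    omega
  rw [hM, hN] at h ⊢
  simp only [Int.natAbs_natCast] at h ⊢
  rcases Nat.odd_mod_four_iff.mp (Nat.odd_iff.mp hm) with h1 | h3
  · rw [jacobiSym.quadratic_reciprocity_one_mod_four' hNo (by omega), h,
      jacobiSym.quadratic_reciprocity_one_mod_four' hn h1]
  · rcases Nat.odd_mod_four_iff.mp (Nat.odd_iff.mp hn) with h1 | h3'
    · rw [jacobiSym.quadratic_reciprocity_one_mod_four (by omega) hMo, h,
        jacobiSym.quadratic_reciprocity_one_mod_four h1 hm]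
    · rw [jacobiSym.quadratic_reciprocity_three_mod_four (by omega) (by omega), h,
        jacobiSym.quadratic_reciprocity_three_mod_four h3' h3]

theorem main_aux {x y : ℤ} (hc : IsCoprime x y) (hx : Odd y) (hxy : (4 : ℤ) ∣ x - y)
    (hne : x ≠ y) : ∀ s m n : ℕ, m + n = s → n < m → Odd m → Odd n → Nat.Coprime m n →
      J(U x y m | (U x y n).natAbs) = J((m : ℤ) | n) := by
  intro s
  induction s using Nat.strong_induction_on with
  | _ s ih =>
    intro m n hs hlt hm hn hcop
    -- general statement for smaller sums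
    have gen : ∀ k : ℕ, Odd k → k + n < s → Nat.Coprime k n →
        J(U x y k | (U x y n).natAbs) = J((k : ℤ) | n) := by
      intro k hk hks hkn
      rcases lt_trichotomy k n with h | h | h
      · have := ih (n + k) (by omega) n k rfl h hn hk hkn.symm
        exact jacobi_flip hx hxy hne hn hk this
      · subst h
        have : k = 1 := by simpa using hkn
        subst this
        simp [U_one]
      · exact ih (k + n) hks k n rfl h hk hn hkn
    have hnpos : 0 < n := hn.pos
    rcases lt_or_ge m (2 * n) with h | h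
    · -- m = 2n - k
      obtain ⟨k, hk⟩ : ∃ k, m + k = 2 * n := ⟨2 * n - m, by omega⟩
      have hm' : m = 2 * n - k := by omega
      have hko : Odd k := by
        rw [Nat.odd_iff] at hm hn ⊢; omega
      have hkn : Nat.Coprime k n := by
        have h1 : Nat.gcd k n = Nat.gcd m n := by
          have : Nat.gcd (m + k) n = n := by rw [hk]; simp
          apply Nat.dvd_antisymm
          · apply Nat.dvd_gcd
            · have hd : Nat.gcd k n ∣ m + k := by rw [hk]; exact (Nat.gcd_dvd_right k n).mul_left 2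
              exact (Nat.dvd_add_left (Nat.gcd_dvd_left k n)).mp hd
            · exact Nat.gcd_dvd_right k n
          · apply Nat.dvd_gcd
            · have hd : Nat.gcd m n ∣ m + k := by rw [hk]; exact (Nat.gcd_dvd_right m n).mul_left 2
              exact (Nat.dvd_add_right (Nat.gcd_dvd_left m n)).mp hd
            · exact Nat.gcd_dvd_right m n
        unfold Nat.Coprime at hcop ⊢
        rw [h1]; exact hcop
      have g := gen k hko (by omega) hkn
      have hposn := U_pos hne hn
      have hodd : Odd (U x y n).natAbs := by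
        rw [Int.natAbs_odd]; exact odd_U hx hxy hn
      have e1 : J(U x y m | (U x y n).natAbs) = J(-U x y k | (U x y n).natAbs) := by
        rw [hm']; exact jacobi_sub hc hx hxy hne hn k (by omega)
      rw [e1, jacobiSym.neg _ hodd, g]
      have e2 : J((m : ℤ) | n) = J(-(k : ℤ) | n) := by
        apply jacobiSym.mod_left'
        have : (m : ℤ) = -(k : ℤ) + n * 2 := by
          have : (m : ℤ) + k = 2 * n := by exact_mod_cast hk
          linarith
        rw [this]; simp
      rw [e2, jacobiSym.neg _ hn]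
      congr 1
      have hN4 : (U x y n).natAbs % 4 = n % 4 := by
        have := U_mod_four hx hxy hn
        have h' : U x y n % 4 = (n : ℤ) % 4 := this
        have : ((U x y n).natAbs : ℤ) = U x y n := Int.natAbs_of_nonneg hposn.le
        omega
      rw [ZMod.χ₄_nat_mod_four, hN4, ← ZMod.χ₄_nat_mod_four]
    · -- m = k + 2 n
      obtain ⟨k, hk⟩ : ∃ k, m = k + 2 * n := ⟨m - 2 * n, by omega⟩
      have hko : Odd k := by
        rw [Nat.odd_iff] at hm hn ⊢; omega
      have hkn : Nat.Coprime k n := by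
        rw [hk] at hcop
        have := hcop
        simpa using this
      have g := gen k hko (by omega) hkn
      have e1 : J(U x y m | (U x y n).natAbs) = J(U x y k | (U x y n).natAbs) := by
        rw [hk]; exact jacobi_add hc hx hxy hne hn k
      rw [e1, g]
      apply jacobiSym.mod_left'
      rw [hk]; push_cast; simp

/-- Terjanian: `(U m / U n) = (m / n)`. -/
theorem jacobi_U {x y : ℤ} (hc : IsCoprime x y) (hx : Odd y) (hxy : (4 : ℤ) ∣ x - y)
    (hne : x ≠ y) {m n : ℕ} (hm : Odd m) (hn : Odd n) (hcop : Nat.Coprime m n) :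
    J(U x y m | (U x y n).natAbs) = J((m : ℤ) | n) := by
  rcases lt_trichotomy m n with h | h | h
  · have := main_aux hc hx hxy hne (n + m) n m rfl h hn hm hcop.symm
    exact jacobi_flip hx hxy hne hn hm this
  · subst h
    have : m = 1 := by simpa using hcop
    subst this
    simp [U_one]
  · exact main_aux hc hx hxy hne (m + n) m n rfl h hm hn hcop

/-- For an odd prime `p`, `U p` is not a square. -/
theorem not_sq {x y : ℤ} (hc : IsCoprime x y) (hx : Odd y) (hxy : (4 : ℤ) ∣ x - y)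
    (hne : x ≠ y) {p : ℕ} (hp : p.Prime) (hp2 : p ≠ 2) (w : ℤ) : U x y p ≠ w ^ 2 := by
  intro hw
  have : Fact p.Prime := ⟨hp⟩
  have hpo : Odd p := hp.odd_of_ne_two hp2
  have hchar : ringChar (ZMod p) ≠ 2 := by
    rw [ZMod.ringChar_zmod_n]; exact hp2
  obtain ⟨a, ha⟩ := FiniteField.exists_nonsquare hchar
  have hcop4 : Nat.Coprime p 4 := by
    have : Nat.Coprime p (2 ^ 2) := Nat.Coprime.pow_right 2 (Nat.coprime_two_right.mpr hpo)
    simpa using this
  obtain ⟨n, hn1, hn2⟩ := Nat.chineseRemainder hcop4 a.val 1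
  have hn4 : n % 4 = 1 := hn2
  have hno : Odd n := by rw [Nat.odd_iff]; omega
  have hna : ((n : ℤ) : ZMod p) = a := by
    have : ((n : ℕ) : ZMod p) = ((a.val : ℕ) : ZMod p) := (ZMod.natCast_eq_natCast_iff _ _ _).mpr hn1
    push_cast
    rw [this]; simp
  have ha0 : a ≠ 0 := by
    rintro rfl; exact ha ⟨0, by simp⟩
  have hcop : Nat.Coprime p n := by
    rw [Nat.Prime.coprime_iff_not_dvd hp]
    intro hd
    apply ha0
    rw [← hna]
    push_cast
    exact (ZMod.natCast_eq_zero_iff n p).mpr hd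
  have hJ := jacobi_U hc hx hxy hne hpo hno hcop
  have h1 : J((p : ℤ) | n) = -1 := by
    rw [jacobiSym.quadratic_reciprocity_one_mod_four' hpo hn4, ← jacobiSym.legendreSym.to_jacobiSym]
    rw [legendreSym.eq_neg_one_iff, hna]
    exact ha
  rw [h1, hw, jacobiSym.pow_left] at hJ
  have := sq_nonneg (J(w | (U x y n).natAbs))
  omega

end Pool.Agent.Hhelper83.Terjanian
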